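import Pool.Agent.PRT.Defs

/-!
# PRT: a kit for `Bd` and `Bm` (proved)
-/

set_option autoImplicit false

namespace Pool.Agent.PRT

open Set MeasureTheory
open scoped ContDiff Nat

section

variable {V W X : Type} [NormedAddCommGroup V] [NormedSpace ℝ V] [NormedAddCommGroup W]
  [NormedSpace ℝ W] [NormedAddCommGroup X] [NormedSpace ℝ X]

theorem Bd.mono {k k' : ℕ} {C C' : ℝ} {ψ : E → V} (h : Bd k C ψ) (hk : k' ≤ k) (hC : C ≤ C') :
    Bd k' C' ψ := fun i hi z => (h i (hi.trans hk) z).trans hC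

theorem Bm.mono {k k' : ℕ} {C C' : ℝ} {ψ : E → V} (h : Bm k C ψ) (hk : k' ≤ k) (hC : C ≤ C') :
    Bm k' C' ψ := fun i h1 hi z => (h i h1 (hi.trans hk) z).trans hC

theorem Bd.bm {k : ℕ} {C : ℝ} {ψ : E → V} (h : Bd k C ψ) : Bm k C ψ := fun i _ hi z => h i hi z

theorem Bd.nonneg {k : ℕ} {C : ℝ} {ψ : E → V} (h : Bd k C ψ) : 0 ≤ C :=
  (norm_nonneg _).trans (h 0 (Nat.zero_le _) 0)

theorem Bd.norm_le {k : ℕ} {C : ℝ} {ψ : E → V} (h : Bd k C ψ) (z : E) : ‖ψ z‖ ≤ C := by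
  simpa using h 0 (Nat.zero_le _) z

theorem bd_iff {k : ℕ} {C : ℝ} {ψ : E → V} : Bd k C ψ ↔ (∀ z, ‖ψ z‖ ≤ C) ∧ Bm k C ψ := by
  constructor
  · intro h
    exact ⟨h.norm_le, h.bm⟩
  · rintro ⟨h0, h1⟩ i hi z
    rcases Nat.eq_zero_or_pos i with rfl | hpos
    · simpa using h0 z
    · exact h1 i hpos hi z

theorem bm_succ {k : ℕ} {C : ℝ} {ψ : E → V} : Bm (k + 1) C ψ ↔ Bd k C (fderiv ℝ ψ) := by
  constructor
  · intro h i hi z
    rw [norm_iteratedFDeriv_fderiv]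
    exact h (i + 1) (by omega) (by omega) z
  · intro h i h1 hi z
    obtain ⟨j, rfl⟩ : ∃ j, i = j + 1 := ⟨i - 1, by omega⟩
    rw [← norm_iteratedFDeriv_fderiv]
    exact h j (by omega) z

theorem bd_succ {k : ℕ} {C : ℝ} {ψ : E → V} :
    Bd (k + 1) C ψ ↔ (∀ z, ‖ψ z‖ ≤ C) ∧ Bd k C (fderiv ℝ ψ) := by
  rw [bd_iff, bm_succ]

theorem Bm.fderiv_le {k : ℕ} {C : ℝ} {ψ : E → V} (h : Bm k C ψ) (hk : 1 ≤ k) (z : E) :
    ‖fderiv ℝ ψ z‖ ≤ C := by
  have := h 1 le_rfl hk z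
  rwa [← norm_iteratedFDeriv_fderiv, norm_iteratedFDeriv_zero] at this

theorem Bd.add {k : ℕ} {C D : ℝ} {f g : E → V} (hf : Bd k C f) (hg : Bd k D g)
    (hsf : ContDiff ℝ ∞ f) (hsg : ContDiff ℝ ∞ g) : Bd k (C + D) (fun z => f z + g z) := by
  intro i hi z
  have hfi : ContDiffAt ℝ i f z := (hsf.of_le (by exact_mod_cast le_top)).contDiffAt
  have hgi : ContDiffAt ℝ i g z := (hsg.of_le (by exact_mod_cast le_top)).contDiffAt
  rw [fun_iteratedFDeriv_add_apply hfi hgi]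
  exact (norm_add_le _ _).trans (add_le_add (hf i hi z) (hg i hi z))

theorem Bm.add {k : ℕ} {C D : ℝ} {f g : E → V} (hf : Bm k C f) (hg : Bm k D g)
    (hsf : ContDiff ℝ ∞ f) (hsg : ContDiff ℝ ∞ g) : Bm k (C + D) (fun z => f z + g z) := by
  intro i h1 hi z
  have hfi : ContDiffAt ℝ i f z := (hsf.of_le (by exact_mod_cast le_top)).contDiffAt
  have hgi : ContDiffAt ℝ i g z := (hsg.of_le (by exact_mod_cast le_top)).contDiffAt
  rw [fun_iteratedFDeriv_add_apply hfi hgi]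
  exact (norm_add_le _ _).trans (add_le_add (hf i h1 hi z) (hg i h1 hi z))

theorem Bd.const_smul {k : ℕ} {C : ℝ} {f : E → V} (hf : Bd k C f) (hsf : ContDiff ℝ ∞ f) (a : ℝ) :
    Bd k (|a| * C) (fun z => a • f z) := by
  intro i hi z
  have hfi : ContDiffAt ℝ i f z := (hsf.of_le (by exact_mod_cast le_top)).contDiffAt
  rw [iteratedFDeriv_const_smul_apply' hfi, norm_smul, Real.norm_eq_abs]
  exact mul_le_mul_of_nonneg_left (hf i hi z) (abs_nonneg _)

theorem Bm.const_smul {k : ℕ} {C : ℝ} {f : E → V} (hf : Bm k C f) (hsf : ContDiff ℝ ∞ f) (a : ℝ) :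
    Bm k (|a| * C) (fun z => a • f z) := by
  intro i h1 hi z
  have hfi : ContDiffAt ℝ i f z := (hsf.of_le (by exact_mod_cast le_top)).contDiffAt
  rw [iteratedFDeriv_const_smul_apply' hfi, norm_smul, Real.norm_eq_abs]
  exact mul_le_mul_of_nonneg_left (hf i h1 hi z) (abs_nonneg _)

theorem Bd.neg {k : ℕ} {C : ℝ} {f : E → V} (hf : Bd k C f) : Bd k C (fun z => - f z) := by
  intro i hi z
  rw [show (fun z => - f z) = -f from rfl, iteratedFDeriv_neg_apply, norm_neg]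
  exact hf i hi z

theorem Bm.neg {k : ℕ} {C : ℝ} {f : E → V} (hf : Bm k C f) : Bm k C (fun z => - f z) := by
  intro i h1 hi z
  rw [show (fun z => - f z) = -f from rfl, iteratedFDeriv_neg_apply, norm_neg]
  exact hf i h1 hi z

theorem Bd.sub {k : ℕ} {C D : ℝ} {f g : E → V} (hf : Bd k C f) (hg : Bd k D g)
    (hsf : ContDiff ℝ ∞ f) (hsg : ContDiff ℝ ∞ g) : Bd k (C + D) (fun z => f z - g z) := by
  have := hf.add hg.neg hsf hsg.neg
  simpa only [sub_eq_add_neg] using this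

theorem Bm.sub {k : ℕ} {C D : ℝ} {f g : E → V} (hf : Bm k C f) (hg : Bm k D g)
    (hsf : ContDiff ℝ ∞ f) (hsg : ContDiff ℝ ∞ g) : Bm k (C + D) (fun z => f z - g z) := by
  have := hf.add hg.neg hsf hsg.neg
  simpa only [sub_eq_add_neg] using this

theorem bd_const (k : ℕ) (a : V) : Bd k ‖a‖ (fun _ : E => a) := by
  intro i _ z
  rcases Nat.eq_zero_or_pos i with rfl | hpos
  · simp
  · rw [iteratedFDeriv_const_of_ne (by omega)]
    simp

theorem Bd.sum {ι : Type} (s : Finset ι) {k : ℕ} {C : ι → ℝ} {f : ι → E → V}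
    (hf : ∀ i ∈ s, Bd k (C i) (f i)) (hsf : ∀ i ∈ s, ContDiff ℝ ∞ (f i)) :
    Bd k (∑ i ∈ s, C i) (fun z => ∑ i ∈ s, f i z) := by
  classical
  induction s using Finset.induction_on with
  | empty =>
    have := bd_const (V := V) k 0
    simpa using this
  | insert a s ha ih =>
    simp only [Finset.sum_insert ha]
    exact (hf a (Finset.mem_insert_self _ _)).add
      (ih (fun i hi => hf i (Finset.mem_insert_of_mem hi))
        (fun i hi => hsf i (Finset.mem_insert_of_mem hi)))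
      (hsf a (Finset.mem_insert_self _ _))
      (ContDiff.sum fun i hi => hsf i (Finset.mem_insert_of_mem hi))

theorem Bd.clm {k : ℕ} {C : ℝ} {f : E → V} (hf : Bd k C f) (hsf : ContDiff ℝ ∞ f)
    (A : V →L[ℝ] W) : Bd k (‖A‖ * C) (fun z => A (f z)) := by
  intro i hi z
  have hfi : ContDiffAt ℝ i f z := (hsf.of_le (by exact_mod_cast le_top)).contDiffAt
  have h := A.norm_iteratedFDeriv_comp_left (n := i) (x := z) hfi le_rfl
  exact h.trans (mul_le_mul_of_nonneg_left (hf i hi z) (norm_nonneg _))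

/-- products -/
theorem Bd.bil {k : ℕ} {C D : ℝ} {f : E → V} {g : E → W} (B : V →L[ℝ] W →L[ℝ] X) (hB : ‖B‖ ≤ 1)
    (hf : Bd k C f) (hg : Bd k D g) (hsf : ContDiff ℝ ∞ f) (hsg : ContDiff ℝ ∞ g) :
    Bd k (2 ^ k * C * D) (fun z => B (f z) (g z)) := by
  intro i hi z
  have h := B.norm_iteratedFDeriv_le_of_bilinear_of_le_one hsf hsg z (n := i)
    (by exact_mod_cast le_top) hB
  refine h.trans ?_
  have hC := hf.nonneg
  have hD := hg.nonneg
  calc ∑ j ∈ Finset.range (i + 1), (i.choose j : ℝ) * ‖iteratedFDeriv ℝ j f z‖ *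
        ‖iteratedFDeriv ℝ (i - j) g z‖
      ≤ ∑ j ∈ Finset.range (i + 1), (i.choose j : ℝ) * C * D := by
        apply Finset.sum_le_sum
        intro j hj
        have hj' : j ≤ i := by
          have := Finset.mem_range.1 hj
          omega
        have h1 := hf j (hj'.trans hi) z
        have h2 := hg (i - j) ((Nat.sub_le _ _).trans hi) z
        gcongr
    _ = 2 ^ i * C * D := by
        rw [← Finset.sum_mul, ← Finset.sum_mul]
        have := Nat.sum_range_choose i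
        have h3 : (∑ j ∈ Finset.range (i + 1), (i.choose j : ℝ)) = 2 ^ i := by exact_mod_cast this
        rw [h3]
    _ ≤ 2 ^ k * C * D := by
        have : (2 : ℝ) ^ i ≤ 2 ^ k := pow_le_pow_right₀ (by norm_num) hi
        gcongr

/-- compositions -/
theorem Bd.comp {k : ℕ} {C D : ℝ} {ψ : E → V} {G : E → E} (hψ : Bd k C ψ) (hG : Bm k D G)
    (hD : 1 ≤ D) (sψ : ContDiff ℝ ∞ ψ) (sG : ContDiff ℝ ∞ G) :
    Bd k (k ! * C * D ^ k) (fun z => ψ (G z)) := by
  intro i hi z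
  have hC := hψ.nonneg
  have h := norm_iteratedFDeriv_comp_le (n := i) sψ sG (by exact_mod_cast le_top) z
    (C := C) (D := D) (fun j hj => hψ j (hj.trans hi) _)
    (fun j h1 hj => (hG j h1 (hj.trans hi) z).trans (le_self_pow₀ hD (by omega)))
  refine h.trans ?_
  have h1 : ((i ! : ℕ) : ℝ) ≤ k ! := by exact_mod_cast Nat.factorial_le hi
  have h2 : D ^ i ≤ D ^ k := pow_le_pow_right₀ hD hi
  have h3 : 0 ≤ D ^ i := by positivity
  gcongr

theorem Bm.comp {k : ℕ} {C D : ℝ} {ψ : E → V} {G : E → E} (hψ : Bm k C ψ) (hC : 0 ≤ C)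
    (hG : Bm k D G) (hD : 1 ≤ D) (sψ : ContDiff ℝ ∞ ψ) (sG : ContDiff ℝ ∞ G) :
    Bm k (k ! * 2 ^ k * C * D ^ (k + 1)) (fun z => ψ (G z)) := by
  rcases Nat.eq_zero_or_pos k with rfl | hpos
  · intro i h1 hi
    omega
  obtain ⟨m, rfl⟩ : ∃ m, k = m + 1 := ⟨k - 1, by omega⟩
  rw [bm_succ]
  have e : fderiv ℝ (fun z => ψ (G z)) =
      fun z => ContinuousLinearMap.compL ℝ E E V (fderiv ℝ ψ (G z)) (fderiv ℝ G z) := by
    funext z
    have h1 : DifferentiableAt ℝ ψ (G z) := (sψ.differentiable (by simp)).differentiableAt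
    have h2 : DifferentiableAt ℝ G z := (sG.differentiable (by simp)).differentiableAt
    exact fderiv_comp z h1 h2
  rw [e]
  have s1 : ContDiff ℝ ∞ (fderiv ℝ ψ) := sψ.fderiv_right (by simp)
  have s2 : ContDiff ℝ ∞ (fderiv ℝ G) := sG.fderiv_right (by simp)
  have b1 : Bd m (m ! * C * D ^ m) (fun z => fderiv ℝ ψ (G z)) :=
    (bm_succ.1 hψ).comp (hG.mono (Nat.le_succ _) le_rfl) hD s1 sG
  have b2 : Bd m D (fderiv ℝ G) := bm_succ.1 hG
  have b3 := Bd.bil (ContinuousLinearMap.compL ℝ E E V) (ContinuousLinearMap.norm_compL_le ℝ E E V)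
    b1 b2 (s1.comp sG) s2
  refine b3.mono le_rfl ?_
  have h1 : ((m ! : ℕ) : ℝ) ≤ (m + 1)! := by exact_mod_cast Nat.factorial_le (Nat.le_succ _)
  have h2 : (2 : ℝ) ^ m ≤ 2 ^ (m + 1) := pow_le_pow_right₀ (by norm_num) (Nat.le_succ _)
  have h3 : D ^ m * D ≤ D ^ (m + 1 + 1) := by
    rw [← pow_succ]
    exact pow_le_pow_right₀ hD (Nat.le_succ _)
  calc 2 ^ m * (m ! * C * D ^ m) * D = (m ! : ℝ) * 2 ^ m * C * (D ^ m * D) := by ring
    _ ≤ ((m + 1)! : ℝ) * 2 ^ (m + 1) * C * D ^ (m + 1 + 1) := by gcongr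

end

theorem bd_id_fderiv (k : ℕ) : Bd k 1 (fderiv ℝ (fun z : E => z)) := by
  have e : fderiv ℝ (fun z : E => z) = fun _ => ContinuousLinearMap.id ℝ E := by
    funext z
    exact fderiv_fun_id 
  rw [e]
  have := bd_const (V := E →L[ℝ] E) k (ContinuousLinearMap.id ℝ E)
  exact this.mono le_rfl ContinuousLinearMap.norm_id_le

theorem bm_id (k : ℕ) : Bm k 1 (fun z : E => z) := by
  have h := bm_succ.2 (bd_id_fderiv k)
  exact h.mono (Nat.le_succ _) le_rfl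

theorem abs_cr_le (a b : E) : |cr a b| ≤ 2 * ‖a‖ * ‖b‖ := by
  unfold cr
  have h1 : |a.1| ≤ ‖a‖ := norm_fst_le a
  have h2 : |a.2| ≤ ‖a‖ := norm_snd_le a
  have h3 : |b.1| ≤ ‖b‖ := norm_fst_le b
  have h4 : |b.2| ≤ ‖b‖ := norm_snd_le b
  calc |a.1 * b.2 - a.2 * b.1| ≤ |a.1 * b.2| + |a.2 * b.1| := abs_sub _ _
    _ = |a.1| * |b.2| + |a.2| * |b.1| := by rw [abs_mul, abs_mul]
    _ ≤ ‖a‖ * ‖b‖ + ‖a‖ * ‖b‖ := by gcongr
    _ = 2 * ‖a‖ * ‖b‖ := by ring

theorem abs_ip_le (a b : E) : |ip a b| ≤ 2 * ‖a‖ * ‖b‖ := by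
  unfold ip
  have h1 : |a.1| ≤ ‖a‖ := norm_fst_le a
  have h2 : |a.2| ≤ ‖a‖ := norm_snd_le a
  have h3 : |b.1| ≤ ‖b‖ := norm_fst_le b
  have h4 : |b.2| ≤ ‖b‖ := norm_snd_le b
  calc |a.1 * b.1 + a.2 * b.2| ≤ |a.1 * b.1| + |a.2 * b.2| := abs_add_le _ _
    _ = |a.1| * |b.1| + |a.2| * |b.2| := by rw [abs_mul, abs_mul]
    _ ≤ ‖a‖ * ‖b‖ + ‖a‖ * ‖b‖ := by gcongr
    _ = 2 * ‖a‖ * ‖b‖ := by ring

theorem det_eq (A : E →L[ℝ] E) : A.det = cr (A (1, 0)) (A (0, 1)) := by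
  have h : LinearMap.det (A : E →ₗ[ℝ] E) =
      (LinearMap.toMatrix (Module.Basis.finTwoProd ℝ) (Module.Basis.finTwoProd ℝ)
        (A : E →ₗ[ℝ] E)).det := (LinearMap.det_toMatrix _ _).symm
  show LinearMap.det (A : E →ₗ[ℝ] E) = _
  rw [h, Matrix.det_fin_two]
  simp [LinearMap.toMatrix_apply, cr]
  ring

theorem cr_map (A : E →L[ℝ] E) (a b : E) : cr (A a) (A b) = A.det * cr a b := by
  rw [det_eq]
  have ha : A a = a.1 • A (1, 0) + a.2 • A (0, 1) := by
    rw [← map_smul, ← map_smul, ← map_add]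
    congr 1
    ext <;> simp
  have hb : A b = b.1 • A (1, 0) + b.2 • A (0, 1) := by
    rw [← map_smul, ← map_smul, ← map_add]
    congr 1
    ext <;> simp
  rw [ha, hb]
  unfold cr
  simp
  ring

theorem cr_self (a : E) : cr a a = 0 := by unfold cr; ring

theorem cr_add_left (a b c : E) : cr (a + b) c = cr a c + cr b c := by unfold cr; simp; ring

theorem cr_add_right (a b c : E) : cr a (b + c) = cr a b + cr a c := by unfold cr; simp; ring

theorem cr_smul_left (t : ℝ) (a b : E) : cr (t • a) b = t * cr a b := by unfold cr; simp; ring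

theorem cr_smul_right (t : ℝ) (a b : E) : cr a (t • b) = t * cr a b := by unfold cr; simp; ring

/-- the identity `α(x) cr p y - α(y) cr p x = α(p) cr x y` -/
theorem cr_lin (α : E →L[ℝ] ℝ) (p x y : E) :
    α x * cr p y - α y * cr p x = α p * cr x y := by
  have h : ∀ a : E, α a = a.1 * α (1, 0) + a.2 * α (0, 1) := by
    intro a
    have : a = a.1 • ((1, 0) : E) + a.2 • ((0, 1) : E) := by ext <;> simp
    conv_lhs => rw [this, map_add, map_smul, map_smul]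
    simp
  rw [h x, h y, h p]
  unfold cr
  ring

end Pool.Agent.PRT
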