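import Pool.Agent.PRT.StmtsC

/-!
# PRT, part D: coordinates, the Knothe map, assembly (rows)

`ε = ‖v‖`, `v = q w - p`, `g = F^[q] - p`, `φ z = g z - z`.
-/

set_option autoImplicit false

namespace Pool.Agent.PRT

open Set MeasureTheory
open scoped ContDiff

/-- the coordinates: `v`-component from the Birkhoff average `H`, the other component from `S` -/
noncomputable def UU (v : E) (H : E → E) (S : E → ℝ) (z : E) : E :=
  (ip v v)⁻¹ • (ip v (H z) • v + S z • jj v)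

/-! ### the coordinates -/

/-- **SDF** (uses MEA).  The function `S`.
PROOF.  `φ' z = fderiv φ z`, `η z = crL (φ z) + (1/2) • (crL (φ z)).comp (φ' z)`, a smooth periodic map `E → (E →L ℝ)`.  It is closed:
`Dη(z)(x)(y) - Dη(z)(y)(x) = cr (φ' x) y - cr (φ' y) x + cr (φ' x) (φ' y)` (the terms with `φ''` cancel, `φ''` is symmetric)
`= cr ((1+φ') x) ((1+φ') y) - cr x y = 0` because `det (1 + φ') = det (fderiv g) = 1` (`cr_map`).  Primitive `S1`: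
`Convex.exists_forall_hasFDerivAt_of_fderiv_symmetric` (on `univ`); it is smooth because its derivative is.
`S1 (z + w') - S1 z =: σ(w')` is constant in `z` for integer `w'` (the derivative is zero), additive in `w'`.  For `w' = iv 1 0`, `iv 0 1`:
`σ(w') = ∫ t in 0..1, η (z + t w') w'` for every `z`; integrate over `z ∈ Q`, exchange the integrals, `η` periodic (the integral over `Q` of a
translate of a periodic function is the same): `σ(w') = ∫ z in Q, η z w' = cr v w' + (1/2) ∫ cr (φ z) (φ' z w')` (MEA), so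
`|σ(w') - cr v w'| ≤ a_0 a_1 ≤ ε² l^17`.  `S z = S1 z - r1 z.1 - r2 z.2`, `r1 = σ(iv 1 0) - cr v (iv 1 0)`, `r2` similarly.  Then
`fderiv S z - crL (φ z) = (1/2) (crL (φ z)).comp (φ' z) - (r1, r2)`; `Bd.bil`, `bd_const`; `‖crL‖ ≤ 2`. -/
def SdfStmt : Prop :=
  ∀ k : ℕ, ∃ (c : ℕ) (l0 : ℝ), ∀ (g : E → E) (v : E) (C l : ℝ) (N : ℕ), l0 ≤ l →
    Nr g v C l N (k + 1) → ∃ S : E → ℝ, ContDiff ℝ ∞ S ∧
      (∀ (a b : ℤ) (z : E), S (z + iv a b) = S z + cr v (iv a b)) ∧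
        Bd k (‖v‖ ^ 2 * l ^ c) (fun z => fderiv ℝ S z - crL (g z - z))

/-- **SEQ** (uses DFB, GLF).  `S` is nearly equivariant under `F`.
PROOF.  `φ (F z) - fderiv F z (φ z) = F (z + φ z) - F z - fderiv F z (φ z)` (as `g ∘ F = F ∘ g`, GLF): DFB for `F` (`Bm (k+2) l F`: `bd` for
`m = 1`), `Bd k (ε l^(k+8)) φ`: it is `Bd k (ε² l^c)`.  `ϑ z = fderiv S z - crL (φ z)`.  `f z = S (F z) - S z` is periodic and
`fderiv f z u = cr (φ (F z) - DF φ) (DF u) + ϑ (F z) (DF u) - ϑ z u` because `cr (DF φ) (DF u) = cr φ u` (`cr_map`).  So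
`Bd k (ε² l^c) (fderiv f)`.  `|f z - f 0| ≤ ε² l^c` (translate `z` into `Q` and mean value inequality).  `S (F^[m] z) - S z = m f(0) +
(error ≤ m ε² l^c)`, and `S z = cr v z + (bounded periodic function)`, `F^[m] z = z + m w + (≤ C)`, so `|m f(0) - m cr v w| ≤ m ε² l^c +
const`: `m → ∞` gives `|f 0 - cr v w| ≤ ε² l^c`. -/
def SeqStmt : Prop :=
  ∀ k c0 : ℕ, ∃ (c : ℕ) (l0 : ℝ), ∀ (F : E → E) (w : E) (C : ℝ) (q : ℕ) (p : E) (l : ℝ) (N R : ℕ)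
    (S : E → ℝ), l0 ≤ l → 10 * k + 200 ≤ N → k + 2 ≤ R → Gd F w C q p l N R →
      Nr (fun z => F^[q] z - p) ((q : ℝ) • w - p) C l N (k + 2) → ContDiff ℝ ∞ S →
        (∀ (a b : ℤ) (z : E), S (z + iv a b) = S z + cr ((q : ℝ) • w - p) (iv a b)) →
          Bd k (‖(q : ℝ) • w - p‖ ^ 2 * l ^ c0)
              (fun z => fderiv ℝ S z - crL (F^[q] z - p - z)) →
            Bd k (‖(q : ℝ) • w - p‖ ^ 2 * l ^ c)
              (fun z => S (F z) - S z - cr ((q : ℝ) • w - p) w)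

/-- **HAT** (uses GLF).  The Birkhoff average.
PROOF.  `M = q n`, `H z = (1/M) • ∑ m < M, (F^[m] z - m • w)`.  Every `m ≤ M + q` is `q j + i` with `j ≤ n`, `i ≤ q`.
`Bm k (l^c0) H` (average).  `H (F z) - H z - w = (1/M) • (F^[M] z - z - M • w)`: norm `≤ C/M ≤ C ε/(16 (C+1)) ≤ ε` (`M ≥ n ≥ 16 (C+1)/ε`),
the derivatives of order `≥ 1` are `≤ (l^c0 + 1)/M ≤ ε l^(c0+1)`.  `H (g z) - H z = -p + (1/M) • ∑ i < q, (F^[M+i] z - F^[i] z)` (GLF: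
`F^[m] (g z) = F^[m+q] z - p`, telescoping), and `‖F^[M+i] z - F^[i] z - M • w‖ ≤ C`, so
`‖H (g z) - H z - (q w - p)‖ ≤ q C/M = C/n ≤ ε/16`. -/
def HatStmt : Prop :=
  ∀ k c0 : ℕ, ∃ (c : ℕ) (l0 : ℝ), ∀ (F : E → E) (w : E) (C : ℝ) (q : ℕ) (p : E) (l : ℝ)
    (N R n : ℕ), l0 ≤ l → Gd F w C q p l N R → 1 ≤ n → 16 * (C + 1) ≤ n * ‖(q : ℝ) • w - p‖ →
      (∀ j ≤ n, ∀ i ≤ q, Bm k (l ^ c0) (F^[q * j + i])) →
        ∃ H : E → E, ContDiff ℝ ∞ H ∧ Eqv H ∧ Bm k (l ^ c0) H ∧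
          Bd k (‖(q : ℝ) • w - p‖ * l ^ c) (fun z => H (F z) - H z - w) ∧
            ∀ z, ‖H (F^[q] z - p) - H z - ((q : ℝ) • w - p)‖ ≤ ‖(q : ℝ) • w - p‖ / 16

/-- **UDT** (uses DFB).  The determinant of the coordinates.
PROOF.  `U = UU v H S`, `ε = ‖v‖`, `ε² ≤ ip v v ≤ 2 ε²`.  `fderiv U z u = (ip v v)⁻¹ (ip v (DH u) v + DS(u) jj v)`, so (`det_eq`,
`cr v (jj v) = ip v v`) `det = (ip v v)⁻¹ (α(e) β(f) - α(f) β(e))`, `α = ip v (DH ·)`, `β = DS = crL (φ z) + ϑ`, `e = (1,0)`, `f = (0,1)`.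
`cr_lin`: `α(e) cr φ f - α(f) cr φ e = α(φ)`.  So `det = (ip v v)⁻¹ (ip v (DH(z) φ) + O(2 ‖α‖ ‖ϑ‖))`, `‖α‖ ≤ 2 ε l^c0`, `‖ϑ‖ ≤ ε² l^c0`.
`DH(z) φ = H (z + φ) - H z - (second difference)`, the second difference is `≤ l^c0 ‖φ‖² ≤ ε² l^(c0+16)`, and
`‖H (g z) - H z - v‖ ≤ ε/16`.  `|ip v x| ≤ 2 ε ‖x‖`: `|det - 1| ≤ 2 (1/16 + ε l^(c0+16)) + 4 ε l^(2 c0) ≤ 1/2`, as `ε = l^(-2N)`,
`N ≥ c0 + 20`. -/
def UdtStmt : Prop :=
  ∀ c0 : ℕ, ∃ l0 : ℝ, ∀ (g : E → E) (v : E) (C l : ℝ) (N : ℕ) (H : E → E) (S : E → ℝ), l0 ≤ l →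
    c0 + 20 ≤ N → Nr g v C l N 2 → ContDiff ℝ ∞ H → ContDiff ℝ ∞ S → Bm 2 (l ^ c0) H →
      (∀ z, ‖H (g z) - H z - v‖ ≤ ‖v‖ / 16) →
        (∀ z, ‖fderiv ℝ S z - crL (g z - z)‖ ≤ ‖v‖ ^ 2 * l ^ c0) →
          ContDiff ℝ ∞ (UU v H S) ∧
            ∀ z, 1 / 2 ≤ (fderiv ℝ (UU v H S) z).det ∧ (fderiv ℝ (UU v H S) z).det ≤ 3 / 2

/-- **UBD** (uses nothing).  The bounds for the coordinates.
PROOF.  `ε² ≤ ip v v`.  `UU (z + iv a b) = UU z + iv a b` because `ip v x • v + cr v x • jj v = ip v v • x` (for all `x`).  `Bm`: the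
derivatives of `S` of order `1..k` are the derivatives of `crL φ + ϑ`, `≤ ε l^c`; those of `ip v H` are `≤ 2 ε l^c0`.
`U (F z) - U z - w = (ip v v)⁻¹ (ip v (H (F z) - H z - w) v + (S (F z) - S z - cr v w) jj v)` by the same identity for `x = w`. -/
def UbdStmt : Prop :=
  ∀ k c0 : ℕ, ∃ (c : ℕ) (l0 : ℝ), ∀ (F g : E → E) (v w : E) (C l : ℝ) (N : ℕ) (H : E → E)
    (S : E → ℝ), l0 ≤ l → Nr g v C l N k → ContDiff ℝ ∞ F → ContDiff ℝ ∞ H → ContDiff ℝ ∞ S →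
      Eqv H → (∀ (a b : ℤ) (z : E), S (z + iv a b) = S z + cr v (iv a b)) →
        Bm k (l ^ c0) H → Bd k (‖v‖ ^ 2 * l ^ c0) (fun z => fderiv ℝ S z - crL (g z - z)) →
          Bd k (‖v‖ * l ^ c0) (fun z => H (F z) - H z - w) →
            Bd k (‖v‖ ^ 2 * l ^ c0) (fun z => S (F z) - S z - cr v w) →
              Eqv (UU v H S) ∧ Bm k (l ^ c) (UU v H S) ∧
                Bd k (‖v‖ * l ^ c) (fun z => UU v H S (F z) - UU v H S z - w)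

/-- **CRD** (uses BOO, GLF, GRF, SDF, SEQ, HAT, UDT, UBD).  The coordinates exist.
PROOF.  `K = k + 2`.  `c0` = the maximum of the constants of GRF (for `K`), SDF, SEQ, HAT.  `N0 = c0 + 10 K + 220`; for `N ≥ N0`:
`R = 4N + K + 10`, `l0` large.  GLF, BOO (for `K + 2`): `Nr g v C l N (K + 2)`.  `n = ⌈16 (C+1)/ε⌉`: `16 (C+1) ≤ n ε ≤ 64 l`.  GRF, HAT,
SDF, SEQ, UDT, UBD. -/
def CrdStmt : Prop :=
  ∀ k : ℕ, ∃ c N0 : ℕ, ∀ N : ℕ, N0 ≤ N → ∃ (R : ℕ) (l0 : ℝ), ∀ (F : E → E) (w : E) (C : ℝ) (q : ℕ)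
    (p : E) (l : ℝ), l0 ≤ l → Gd F w C q p l N R → ∃ U : E → E, ContDiff ℝ ∞ U ∧ Eqv U ∧
      (∀ z, 1 / 2 ≤ (fderiv ℝ U z).det ∧ (fderiv ℝ U z).det ≤ 3 / 2) ∧ Bm k (l ^ c) U ∧
        Bd k (‖(q : ℝ) • w - p‖ * l ^ c) (fun z => U (F z) - U z - w)

/-! ### the Knothe map -/

/-- **PAR** (uses nothing).  Primitives with parameter.
PROOF.  `G f z = ∫ t in 0..z.2, f (z.1, t)` has the derivative `u ↦ f z * u.2 + G (∂₁ f) z * u.1`, `∂₁ f = fun z => fderiv f z (1,0)`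
(`intervalIntegral.hasDerivAt_integral_of_dominated_loc_of_deriv_le` or `hasFDerivAt_integral...`, and the fundamental theorem; or: write
`G f z = ∫ s in 0..1, z.2 * f (z.1, z.2 * s)` and use `ContDiff` of parametric interval integrals with fixed bounds).  Smooth by
induction on the order (`contDiff_infty_iff_fderiv`, for all `f`).  The bound by induction on `k`, for all `f`: `|G f z| ≤ C` for
`0 ≤ z.2 ≤ 1`; the `i`-th derivative of `fderiv (G f)` at `z` is `≤ C + (i + 1) C`. -/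
def ParStmt : Prop :=
  ∀ f : E → ℝ, ContDiff ℝ ∞ f →
    ContDiff ℝ ∞ (fun z : E => ∫ t in (0 : ℝ)..z.2, f (z.1, t)) ∧
      ∀ (k : ℕ) (C : ℝ), Bd k C f → ∀ i ≤ k, ∀ z : E, 0 ≤ z.2 → z.2 ≤ 1 →
        ‖iteratedFDeriv ℝ i (fun z : E => ∫ t in (0 : ℝ)..z.2, f (z.1, t)) z‖ ≤ (k + 1) * C

/-- **AVM** (uses PAR).  The mean over `y`.
PROOF.  `av f z.1 = G f (z.1, 1)`, composition of `G f` with the affine map `z ↦ (z.1, 1)`; the derivative of `z ↦ av f z.1` is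
`u ↦ av (∂₁ f) z.1 * u.1`.  `Bd k C f` gives `Bd k ((k+1) C)` of it (PAR at the points `(z.1, 1)`).  Periodic: clear. -/
def AvmStmt : Prop :=
  ∀ f : E → ℝ, ContDiff ℝ ∞ f → ContDiff ℝ ∞ (fun z : E => av f z.1) ∧
    ∀ (k : ℕ) (C : ℝ), Bd k C f → Bd k ((k + 1) * C) (fun z : E => av f z.1)

/-- **KNA** (uses PAR, AVM).  The Knothe map.
PROOF.  `A = av ρ ≥ 1/2`, smooth, `1`-periodic, `∫ A = ∫ over Q of ρ = 1` (Fubini).  `k1' = A`, `k1 (x + a) = k1 x + a` for integer `a`.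
`k2 z = G ρ z/A(z.1) - ∫ r in 0..1, G ρ (z.1, r)/A(z.1) + 1/2` is smooth (PAR for `ρ` and for `G ρ`, AVM), `k2 (z + iv a b) = k2 z + b`
(`G ρ (x, y + 1) = G ρ (x, y) + A x`).  The derivative of `kn ρ` is lower triangular with the diagonal `A(z.1)`, `ρ z/A(z.1)`: determinant
`ρ z` (`det_eq`). -/
def KnaStmt : Prop :=
  ∀ ρ : E → ℝ, Dn ρ → ContDiff ℝ ∞ (kn ρ) ∧ Eqv (kn ρ) ∧ ∀ z, (fderiv ℝ (kn ρ) z).det = ρ z

/-- **KNB** (uses nothing).  The Knothe map is equivariant.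
PROOF.  `ρ' z = ρ (z + w)`: `av ρ' x = av ρ (x + w.1)` (integral of a `1`-periodic function over an interval of length one).
`x ↦ k1 ρ' x - (k1 ρ (x + w.1) - w.1)` has derivative zero, and both functions minus `x` have the same mean over `[0,1]`
(`∫ x in 0..1, (k1 ρ x - x) = 0` by definition, and `k1 ρ x - x` is `1`-periodic).  The same for `k2` in the variable `z.2` for
fixed `z.1`: `∫ y in 0..1, (k2 ρ (x, y) - y) = 0`. -/
def KnbStmt : Prop :=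
  ∀ (ρ : E → ℝ) (w : E), Dn ρ → ∀ z, kn (fun z => ρ (z + w)) z = kn ρ (z + w) - w

/-- **KNC** (uses PAR, AVM, RCP).  Bounds for the Knothe map.
PROOF.  `f z = kn ρ' z - kn ρ z` is periodic, so only points with `0 ≤ z.1, z.2 ≤ 1` matter.  First component:
`k1 ρ' x - k1 ρ x = ∫ s in 0..x, (av ρ' - av ρ) - (mean)`, bounded by `2 δ`, derivative `av ρ' - av ρ` (AVM).  Second component:
`(G ρ'/A' - G ρ/A) - (mean over r of the same function of (z.1, r))`; `G ρ'/A' - G ρ/A = G (ρ' - ρ)/A' + G ρ (1/A' - 1/A)`,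
`1/A' - 1/A = (A - A')/(A A')` (RCP, AVM, PAR; products as in `Bd.bil`, for the points of the strip `0 ≤ z.2 ≤ 1`; the mean over `r` of
`h (z.1, r)` is `av h z.1`, AVM-like estimate; for `av` only the values in the strip are needed).  `Bm k (c L^c) (kn ρ)`: the same with one
density (the derivatives of order `≥ 1` of `kn ρ` are periodic). -/
def KncStmt : Prop :=
  ∀ k : ℕ, ∃ c : ℕ, ∀ (ρ ρ' : E → ℝ) (L δ : ℝ), Dn ρ → Dn ρ' → 1 ≤ L → Bd k L ρ → Bd k L ρ' →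
    Bd k δ (fun z => ρ' z - ρ z) →
      Bm k (c * L ^ c) (kn ρ) ∧ Bd k (c * L ^ c * δ) (fun z => kn ρ' z - kn ρ z)

/-! ### straightening -/

/-- **RHO** (uses DFA, RCP, DTB, INB, ITG).  The density of the coordinates.
PROOF.  `ρ = det (fderiv W)`, `det (fderiv U (W y)) * ρ y = 1`, so `2/3 ≤ ρ ≤ 2`; `Dn ρ` (ITG for `W`); `Bd k (c L^c) ρ` (INB with `k + 1`,
DTB).  `E1 y = U (F (W y)) - y - w` is `(U ∘ F - U - w) ∘ W`: `Bd (k+1) (c L^c δ)`.  `F1 y = y + w + E1 y = U (F (W y))`: by the chain rule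
and `det DF = 1`: `ρ (F1 y) * det (1 + DE1 y) = ρ y`.  (`det (1 + X) - 1 = O(c L^c δ)` in `C^k` (DTB for `A = 1`, `A' = 1 + DE1`), and
`≥ 1/2` by the smallness of `δ`.)  So `ρ (y + w) - ρ y = [ρ (y + w) - ρ (y + w + E1 y)] + ρ (F1 y) (1 - det (1 + DE1 y))`: DFA for
`y ↦ ρ (y + w)`, and products. -/
def RhoStmt : Prop :=
  ∀ k : ℕ, ∃ c : ℕ, ∀ (F U W : E → E) (w : E) (C L δ : ℝ), Lf F w C → 1 ≤ L → 0 ≤ δ →
    c * L ^ c * δ ≤ 1 → ContDiff ℝ ∞ U → ContDiff ℝ ∞ W → Eqv U → Eqv W → (∀ z, W (U z) = z) →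
      (∀ z, U (W z) = z) → (∀ z, 1 / 2 ≤ (fderiv ℝ U z).det ∧ (fderiv ℝ U z).det ≤ 3 / 2) →
        Bm (k + 2) L U → Bd (k + 2) δ (fun z => U (F z) - U z - w) →
          Dn (fun y => (fderiv ℝ W y).det) ∧ Bd k (c * L ^ c) (fun y => (fderiv ℝ W y).det) ∧
            Bd k (c * L ^ c * δ) (fun y => (fderiv ℝ W (y + w)).det - (fderiv ℝ W y).det)

/-- **STR** (uses DFA, INB, DIF, MSP, KNA, KNB, KNC, RHO).  Area preserving coordinates.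
PROOF.  DIF: `W = U⁻¹`.  RHO (for `k + 1`): `ρ = det DW`, `ρw y = ρ (y + w)` (also a density: MSP for the translation by `w`,
`ψ = (ρ, 0)`, for the integral).  `K = kn ρ`, KNA, DIF: `K⁻¹`; INB:
`Bm k (..) K⁻¹` (`det DK = ρ ≥ 1/2`).  `V = K ∘ U`, `V⁻¹ = W ∘ K⁻¹`, `det DV z = ρ (U z) det DU(z) = 1`.  `E1` as in RHO:
`K (F1 y) - K y - w = [K (y + w + E1 y) - K (y + w)] + [K (y + w) - w - K y]`; the first bracket by DFA (`Bm (k+1)` of `y ↦ K (y + w)`,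
KNC), the second one is `kn ρw y - kn ρ y` (KNB, KNC): `Bd k (c L^c δ)`.  `V (F (V⁻¹ x)) - x - w` is this function at `y = K⁻¹ x`
(`U F W = F1`): `Bd.comp`. -/
def StrStmt : Prop :=
  ∀ k : ℕ, ∃ c : ℕ, ∀ (F U : E → E) (w : E) (C L δ : ℝ), Lf F w C → 1 ≤ L → 0 ≤ δ →
    c * L ^ c * δ ≤ 1 → ContDiff ℝ ∞ U → Eqv U →
      (∀ z, 1 / 2 ≤ (fderiv ℝ U z).det ∧ (fderiv ℝ U z).det ≤ 3 / 2) → Bm (k + 3) L U →
        Bd (k + 3) δ (fun z => U (F z) - U z - w) →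
          ∃ V h : E → E, ContDiff ℝ ∞ V ∧ ContDiff ℝ ∞ h ∧ (∀ z, V (h z) = z) ∧
            (∀ z, h (V z) = z) ∧ Eqv h ∧ (∀ z, (fderiv ℝ h z).det = 1) ∧
              Bd k (c * L ^ c * δ) (fun z => V (F (h z)) - z - w)

/-- **FIN** (uses CHL, CRD, STR).  Condition (A) implies almost-reducibility.
PROOF.  Given `k`, `δ`.  `c1`, `N0` from CRD for `k + 3`, `c2` from STR for `k`.  `N` with `2 N ≥ c1 + c2 (c1 + 1) + 2` and `N ≥ N0, 1`; `R`, `l0`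
from CRD; CHL with `l0' ≥ l0, c2, 1/δ, 1`.  `U` from CRD, `L = l^c1`, `δ' = ε l^c1`: `c2 L^c2 δ' ≤ l^(1 + c1 c2 + c1 - 2N) ≤ 1/l ≤ min δ 1`.  STR. -/
def FinStmt : Prop :=
  ∀ (F : E → E) (w : E) (C : ℝ), Lf F w C → HypA F w → AR F w

/-- **RES** (uses DEV, SLV, PLG, FIN).  The result.
PROOF.  DEV gives `Lf F w C`; SLV resp. PLG; FIN. -/
def ResStmt : Prop :=
  ∀ (F H : E → E) (w : E), ContDiff ℝ ∞ F →
    (∃ G : E → E, ContDiff ℝ ∞ G ∧ (∀ z, G (F z) = z) ∧ ∀ z, F (G z) = z) → Eqv F →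
      (∀ z, (fderiv ℝ F z).det = 1) → Continuous H → Eqv H → (∀ z, H (F z) = H z + w) →
        (∀ (q : ℕ) (a b : ℤ), 1 ≤ q → (q : ℝ) • w ≠ iv a b) →
          (HypA F w → AR F w) ∧
          ((∀ K : ℝ, ∃ (q : ℕ) (a b : ℤ), 1 ≤ q ∧ ‖(q : ℝ) • w - iv a b‖ ≤ Real.exp (-K * q)) →
            AR F w) ∧
          ((∀ n : ℕ, ∃ (q : ℕ) (a b : ℤ), 2 ≤ q ∧ ‖(q : ℝ) • w - iv a b‖ * (q : ℝ) ^ n ≤ 1) →
            (∃ (A : ℝ) (s : ℕ), ∀ (m : ℕ) (z : E),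
              ‖fderiv ℝ (F^[m]) z‖ ≤ A * ((m : ℝ) + 1) ^ s) → AR F w)

end Pool.Agent.PRT
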