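import Mathlib

/-!
# PRT: almost-reducibility of pseudo-rotations of the torus (MP_b2962a_an), definitions

Maps of the torus are given by lifts `F : E → E`, `E = ℝ × ℝ` (sup norm), which commute with the
integer translations.  `w` is the rotation vector.
-/

set_option autoImplicit false

namespace Pool.Agent.PRT

open Set MeasureTheory
open scoped ContDiff

/-- the plane (sup norm) -/
abbrev E := ℝ × ℝ

/-- the integer vector `(a, b)` -/
def iv (a b : ℤ) : E := ((a : ℝ), (b : ℝ))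

/-- `F` commutes with the integer translations -/
def Eqv (F : E → E) : Prop := ∀ (a b : ℤ) (z : E), F (z + iv a b) = F z + iv a b

/-- periodic functions -/
def Per {V : Type} (ψ : E → V) : Prop := ∀ (a b : ℤ) (z : E), ψ (z + iv a b) = ψ z

/-- the derivatives of order `0, .., k` are bounded by `C` -/
def Bd {V : Type} [NormedAddCommGroup V] [NormedSpace ℝ V] (k : ℕ) (C : ℝ) (ψ : E → V) : Prop :=
  ∀ i ≤ k, ∀ z, ‖iteratedFDeriv ℝ i ψ z‖ ≤ C

/-- the derivatives of order `1, .., k` are bounded by `C` -/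
def Bm {V : Type} [NormedAddCommGroup V] [NormedSpace ℝ V] (k : ℕ) (C : ℝ) (ψ : E → V) : Prop :=
  ∀ i, 1 ≤ i → i ≤ k → ∀ z, ‖iteratedFDeriv ℝ i ψ z‖ ≤ C

/-- the determinant of two vectors -/
def cr (a b : E) : ℝ := a.1 * b.2 - a.2 * b.1

/-- the Euclidean inner product -/
def ip (a b : E) : ℝ := a.1 * b.1 + a.2 * b.2

/-- `crL a u = cr a u` as a continuous bilinear map -/
noncomputable def crL : E →L[ℝ] E →L[ℝ] ℝ :=
  (ContinuousLinearMap.mul ℝ ℝ).bilinearComp (ContinuousLinearMap.fst ℝ ℝ ℝ)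
      (ContinuousLinearMap.snd ℝ ℝ ℝ) -
    (ContinuousLinearMap.mul ℝ ℝ).bilinearComp (ContinuousLinearMap.snd ℝ ℝ ℝ)
      (ContinuousLinearMap.fst ℝ ℝ ℝ)

theorem crL_apply (a u : E) : crL a u = cr a u := by
  simp [crL, cr, ContinuousLinearMap.bilinearComp]

/-- the unit square -/
def Q : Set E := Icc (0 : ℝ) 1 ×ˢ Icc (0 : ℝ) 1

/-- `F` is the lift of a conservative `C^∞` diffeomorphism of the torus (homotopic to the identity)
with bounded mean motion, rotation vector `w` -/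
structure Lf (F : E → E) (w : E) (C : ℝ) : Prop where
  sm : ContDiff ℝ ∞ F
  inv : ∃ G : E → E, ContDiff ℝ ∞ G ∧ (∀ z, G (F z) = z) ∧ ∀ z, F (G z) = z
  eqv : Eqv F
  det : ∀ z, (fderiv ℝ F z).det = 1
  dev : ∀ (n : ℕ) (z : E), ‖F^[n] z - z - (n : ℝ) • w‖ ≤ C

/-- almost-reducibility -/
def AR (F : E → E) (w : E) : Prop :=
  ∀ (k : ℕ) (δ : ℝ), 0 < δ → ∃ h g : E → E, ContDiff ℝ ∞ h ∧ ContDiff ℝ ∞ g ∧
    (∀ z, g (h z) = z) ∧ (∀ z, h (g z) = z) ∧ Eqv h ∧ (∀ z, (fderiv ℝ h z).det = 1) ∧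
      Bd k δ (fun z => g (F (h z)) - z - w)

/-- a good time `q`: `v = q w - p`, `‖v‖ l^(2N) = 1` and everything else is at most `l` -/
structure Gd (F : E → E) (w : E) (C : ℝ) (q : ℕ) (p : E) (l : ℝ) (N R : ℕ) : Prop where
  lf : Lf F w C
  q1 : 1 ≤ q
  pz : ∃ a b : ℤ, p = iv a b
  v0 : 0 < ‖(q : ℝ) • w - p‖
  lN : ‖(q : ℝ) • w - p‖ * l ^ (2 * N) = 1
  l1 : 1 ≤ l
  Cl : C ≤ l
  ql : (q : ℝ) ≤ l
  bd : ∀ m ≤ q, Bm R l (F^[m])

/-- a near-identity map `g`: the displacement `g z - z` is of size `‖v‖ l^8` in `C^k` -/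
structure Nr (g : E → E) (v : E) (C l : ℝ) (N k : ℕ) : Prop where
  lf : Lf g v C
  v0 : 0 < ‖v‖
  lN : ‖v‖ * l ^ (2 * N) = 1
  l1 : 1 ≤ l
  Cl : C ≤ l
  bd : ∀ i ≤ k, ∀ z, ‖iteratedFDeriv ℝ i (fun z => g z - z) z‖ ≤ ‖v‖ * l ^ (i + 8)

/-- a homeomorphism of the plane at bounded distance from a translation, with all iterates -/
structure Hm (G : E ≃ₜ E) (w : E) (C : ℝ) : Prop where
  w0 : w ≠ 0
  dev : ∀ (n : ℤ) (z : E), ‖(G ^ n) z - z - (n : ℝ) • w‖ ≤ C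

/-- a line `L` with `L (t + 1) = G^i (L t)` -/
structure Ln (G : E ≃ₜ E) (w : E) (C : ℝ) (L : ℝ → E) (i : ℕ) : Prop where
  hm : Hm G w C
  cont : Continuous L
  i2 : 2 ≤ i
  step : ∀ t, L (t + 1) = (G ^ i) (L t)

/-! ### the Knothe map of a density -/

/-- the mean over `y` -/
noncomputable def av (ρ : E → ℝ) (x : ℝ) : ℝ := ∫ t in (0 : ℝ)..1, ρ (x, t)

/-- the primitive over `x` with mean zero displacement -/
noncomputable def k1 (ρ : E → ℝ) (x : ℝ) : ℝ :=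
  (∫ s in (0 : ℝ)..x, av ρ s) - (∫ r in (0 : ℝ)..1, ∫ s in (0 : ℝ)..r, av ρ s) + 1 / 2

/-- the primitive over `y` of `ρ / av ρ` with mean zero displacement -/
noncomputable def k2 (ρ : E → ℝ) (z : E) : ℝ :=
  (∫ t in (0 : ℝ)..z.2, ρ (z.1, t)) / av ρ z.1 -
    (∫ r in (0 : ℝ)..1, (∫ t in (0 : ℝ)..r, ρ (z.1, t)) / av ρ z.1) + 1 / 2

/-- the Knothe map -/
noncomputable def kn (ρ : E → ℝ) (z : E) : E := (k1 ρ z.1, k2 ρ z)

/-- a density: smooth, periodic, `≥ 1/2`, total mass one -/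
structure Dn (ρ : E → ℝ) : Prop where
  sm : ContDiff ℝ ∞ ρ
  per : Per ρ
  lb : ∀ z, 1 / 2 ≤ ρ z
  one : ∫ z in Q, ρ z = 1

end Pool.Agent.PRT
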