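import Pool.Agent.PRT.Defs

/-!
# PRT, part A: the chord lemma and the displacement lemma (rows)

Every row: file `Pool/Agent/HelperNN_PRT/XXX.lean`, import `Pool.Agent.PRT.StmtsA` (or `StmtsB`, `StmtsC`,
`StmtsD`), namespace `Pool.Agent.PRT.HNN`, theorem `xxx (hypotheses = rows in uses, in this order) : XxxStmt`.
-/

set_option autoImplicit false

namespace Pool.Agent.PRT

open Set MeasureTheory
open scoped ContDiff

/-! ### a homeomorphism of the plane near a translation -/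

/-- **WND** (uses nothing).  Poincare-Miranda in dimension 2.
PROOF.  Suppose `f` has no zero on the square.  `F : C(I × I, ℂ)`, `F (x, y) = f.1 + i f.2` is never zero; the square
`I × I` (`I = unitInterval`) is simply connected and locally path connected (contractible, convex), so by
`Complex.isCoveringMapOn_exp` (`Analysis/Complex/CoveringMap.lean`) and `IsCoveringMapOn.existsUnique_continuousMap_lifts`
(`Topology/Homotopy/Lifting.lean`) there is a continuous `g` with `exp g = F`; `θ = im g` is continuous and `F = r e^(iθ)`,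
`r > 0`.  On the bottom side `sin θ < 0`, on the right side `cos θ > 0`, on the top side `sin θ > 0`, on the left side
`cos θ < 0`.  Corners: at `(0,0)`: `cos, sin < 0`.  A continuous function on an interval with `sin θ ≠ 0` stays in one
interval `(jπ, (j+1)π)`, with `cos θ ≠ 0` in one interval `(jπ - π/2, jπ + π/2)` (intermediate value theorem).  Let
`θ(0,0) ∈ (2jπ + π, 2jπ + 3π/2)`.  Bottom: `θ ∈ (2jπ + π, 2jπ + 2π)`, at the corner `(1,0)` also `cos > 0`: `θ ∈ (2jπ + 3π/2,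
2jπ + 2π)`.  Right: `θ ∈ (2jπ + 3π/2, 2jπ + 5π/2)`, at `(1,1)`: `(2jπ + 2π, 2jπ + 5π/2)`.  Top: `(2jπ + 2π, 2jπ + 3π)`, at
`(0,1)`: `(2jπ + 5π/2, 2jπ + 3π)`.  Left: `(2jπ + 5π/2, 2jπ + 7π/2)`, at `(0,0)`: contradiction. -/
def WndStmt : Prop :=
  ∀ f : E → E, Continuous f → (∀ t ∈ Icc (0 : ℝ) 1, (f (0, t)).1 < 0) →
    (∀ t ∈ Icc (0 : ℝ) 1, 0 < (f (1, t)).1) → (∀ s ∈ Icc (0 : ℝ) 1, (f (s, 0)).2 < 0) →
      (∀ s ∈ Icc (0 : ℝ) 1, 0 < (f (s, 1)).2) →
        ∃ s ∈ Icc (0 : ℝ) 1, ∃ t ∈ Icc (0 : ℝ) 1, f (s, t) = 0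

/-- **CRS** (uses WND).  Crossing.
PROOF.  `f (s, t) = (ip w (L (T (2 s - 1)) - σ t), - cr w (L (T (2 s - 1)) - σ t))`: WND gives a zero; `ip w u = 0` and
`cr w u = 0` give `u = 0` because `w ≠ 0` (the first two inequalities). -/
def CrsStmt : Prop :=
  ∀ (L σ : ℝ → E) (w : E) (T : ℝ), Continuous L → Continuous σ → 0 < T →
    (∀ s ∈ Icc (0 : ℝ) 1, ip w (L (-T)) < ip w (σ s)) →
      (∀ s ∈ Icc (0 : ℝ) 1, ip w (σ s) < ip w (L T)) →
        (∀ t ∈ Icc (-T) T, cr w (σ 0) < cr w (L t)) →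
          (∀ t ∈ Icc (-T) T, cr w (L t) < cr w (σ 1)) →
            ∃ t ∈ Icc (-T) T, ∃ s ∈ Icc (0 : ℝ) 1, L t = σ s

/-- **LBD** (uses nothing).  Bounds for the lines `G^n ∘ L`.
PROOF.  `L (t + m) = G^(im) (L t)` for `m : ℤ` (induction; for negative `m` from `L t = G^i (L (t - 1))`).  For `t = m + τ`,
`τ ∈ [0, 1)`, `m = ⌊t⌋`: `G^n (L t) = G^(n + im) (L τ) = L τ + (n + i m) w + (error of norm ≤ C)`, `L` is bounded on `[0, 1]`,
`cr w w = 0`, `|cr w u| ≤ 2 ‖w‖ ‖u‖`, `|ip w u| ≤ 2 ‖w‖ ‖u‖`, `ip w w > 0`.  The range is closed: `t ↦ G^n (L t)` is continuous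
and `ip w` of it tends to `±∞`, so the preimage of a bounded set is bounded (a convergent sequence of values has bounded
parameters, take a convergent subsequence); or write it as a locally finite union of compact sets. -/
def LbdStmt : Prop :=
  ∀ (G : E ≃ₜ E) (w : E) (C : ℝ) (L : ℝ → E) (i : ℕ), Ln G w C L i →
    (∀ (m : ℤ) (t : ℝ), L (t + m) = (G ^ ((i : ℤ) * m)) (L t)) ∧
    (∃ H : ℝ, ∀ (n : ℤ) (t : ℝ), |cr w ((G ^ n) (L t))| < H) ∧
    (∀ (n : ℤ) (A : ℝ), ∃ T : ℝ, 0 < T ∧ ip w ((G ^ n) (L (-T))) < -A ∧ A < ip w ((G ^ n) (L T))) ∧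
    ∀ n : ℤ, IsClosed (range fun t => (G ^ n) (L t))

/-- **LSP** (uses CRS, LBD).  The line `G^n ∘ L` separates the far lower half plane from the far upper half plane.
PROOF.  The complement `U` of the range is open (LBD), so the connected component of `u` in `U` is open and connected, hence
path connected (`IsOpen.isConnected_iff_isPathConnected`); a path `σ` in it from `d` to `u` (extended to `ℝ`) satisfies
`cr w (σ 0) ≤ - H < cr w (G^n (L t)) < H ≤ cr w (σ 1)`; `σ` is bounded, so `T` from LBD gives the other two inequalities of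
CRS (for the line `G^n ∘ L`): a point of the range on `σ`, contradiction. -/
def LspStmt : Prop :=
  ∀ (G : E ≃ₜ E) (w : E) (C : ℝ) (L : ℝ → E) (i : ℕ), Ln G w C L i →
    ∀ H : ℝ, (∀ (n : ℤ) (t : ℝ), |cr w ((G ^ n) (L t))| < H) → ∀ (n : ℤ) (d u : E),
      cr w d ≤ -H → H ≤ cr w u → d ∉ connectedComponentIn (range fun t => (G ^ n) (L t))ᶜ u

/-- **LOR** (uses LBD, LSP).  The line `L` meets its image.
PROOF.  Suppose not.  `X n = range (G^n ∘ L)` (closed, connected), `H` from LBD, `u0` with `cr w u0 ≥ H`, `d0` with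
`cr w d0 ≤ -H` (multiples of `(-w.2, w.1)`).  `Up n` = the connected component of `u0` in the complement of `X n`.  It contains the
convex half plane `P = {cr w z ≥ H}`.  (1) `G (Up n) = Up (n+1)`: `G` maps the complement of `X n` onto the complement of
`X (n+1)` (homeomorphism) and components onto components; a point `z` with `cr w z ≥ H + 2‖w‖ C` is in `P`, and `G z` is in `P`
(`|cr w (G z) - cr w z| ≤ 2 ‖w‖ C`).  (2) `X 0`, `X 1` are disjoint (the assumption).  Claim: `Up 1 ⊂ Up 0` strictly or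
`Up 0 ⊂ Up 1` strictly.  Let `σ` be the segment from `u0` to `d0`; it meets `X 0` (otherwise `d0 ∈ Up 0`, LSP).  Let `x` be the first
point of `σ` (from `u0`) in the closed set `X 0 ∪ X 1`; say `x ∈ X 0` (the other case is symmetric).  The part before `x` and `x`
itself avoid `X 1`, so `x ∈ Up 1`, and `X 0 ⊆ Up 1` (connected, in the complement of `X 1`).  `X 1` and `Up 0` are disjoint: otherwise
`X 1 ⊆ Up 0`; let `y` be the first point of `σ` from the side of `d0` in `X 0 ∪ X 1`; if `y ∈ X 0` then `y` is in the component of `d0` in the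
complement of `X 1`, so `d0 ∈ Up 1`, against LSP; if `y ∈ X 1` then `d0 ∈ Up 0`, against LSP.  So `Up 0` is a connected subset of the
complement of `X 1` which contains `u0`: `Up 0 ⊆ Up 1`, and it is a strict inclusion because `X 0 ⊆ Up 1`, `X 0` is disjoint from `Up 0` and
not empty.  (3) By (1), `Up n ⊂ Up (n+1)` strictly for all `n ≥ 0`, so `Up 0 ⊂ Up i` strictly (`i ≥ 2 > 0`), but `X i = X 0` (`step`):
contradiction. -/
def LorStmt : Prop :=
  ∀ (G : E ≃ₜ E) (w : E) (C : ℝ) (L : ℝ → E) (i : ℕ), Ln G w C L i → ∃ s t : ℝ, L s = G (L t)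

/-- **CHD** (uses LOR).  The chord lemma.
PROOF.  `G^n z ≠ z` for `n ≠ 0` (otherwise `G^(nm) z = z` for all `m`, against `dev` and `w ≠ 0`).  Suppose the conclusion is false.
`K = {(s, t, i) : s, t ∈ [0,1], i ≥ 1, c t = G^i (c s)}` is not empty; `i = 1` does not occur; `i` is bounded (`dev`, `c` bounded on
`[0,1]`), so the infimum of `|t - s|` over `K` is attained (for every `i` the set is compact, finitely many `i`); let `(s, t, i)` be a
minimum.  `s ≠ t`, `2 ≤ i`.  Put `e τ = c (s + τ (t - s))` for `τ ∈ [0, 1]`: `e 1 = G^i (e 0)`.  (*) If `σ, τ ∈ [0,1]`, `j ≥ 1` and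
`e τ = G^j (e σ)` then `|τ - σ| = 1` by minimality; `(σ, τ) = (0, 1)` gives `j = i` (no periodic points), `(1, 0)` gives
`e 0 = G^(j+i) (e 0)`, impossible.  Define `L t = G^(i ⌊t⌋) (e (t - ⌊t⌋))`: it is continuous because `e 1 = G^i (e 0)`, and
`L (t + 1) = G^i (L t)`.  (Continuity: for instance `L = ⋃` of continuous pieces on `[n, n+1]`, locally finite closed cover.)
LOR: `L a = G (L b)`, so `e τ = G^j (e σ)` with `τ, σ ∈ [0,1)`, `j = 1 + i (⌊b⌋ - ⌊a⌋)`; `j ≠ 0` as `i ≥ 2`; `j ≥ 1`: (*) gives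
`|τ - σ| = 1`, impossible in `[0,1)`; `j ≤ -1`: `e σ = G^(-j) (e τ)`, the same. -/
def ChdStmt : Prop :=
  ∀ (G : E ≃ₜ E) (w : E) (C : ℝ), Hm G w C → ∀ c : ℝ → E, Continuous c →
    InjOn c (Icc (0 : ℝ) 1) →
      (∀ s ∈ Icc (0 : ℝ) 1, ∀ t ∈ Icc (0 : ℝ) 1, c t ≠ G (c s)) →
        ∀ k : ℕ, 1 ≤ k → ∀ s ∈ Icc (0 : ℝ) 1, ∀ t ∈ Icc (0 : ℝ) 1, c t ≠ (G ^ k) (c s)

/-- **FRB** (uses CHD).  Free balls.
PROOF.  Let `z` and `G^k z` be in the ball.  `G^k z ≠ z` (no periodic points, as in CHD).  `c s = z + s (G^k z - z)` is injective and stays in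
the ball (convex), so `c t ≠ G (c s)`.  CHD with `s = 0`, `t = 1`: `G^k z ≠ G^k z`. -/
def FrbStmt : Prop :=
  ∀ (G : E ≃ₜ E) (w : E) (C : ℝ), Hm G w C → ∀ (z0 : E) (r : ℝ),
    (∀ z ∈ Metric.ball z0 r, G z ∉ Metric.ball z0 r) →
      ∀ k : ℕ, 1 ≤ k → ∀ z ∈ Metric.ball z0 r, (G ^ k) z ∉ Metric.ball z0 r

/-- **HMF** (uses nothing).  The homeomorphism of a lift and of its iterates.
PROOF.  `G z = g^[m] z` is a homeomorphism (smooth inverse).  For `n ≥ 0`: `G^n z = g^[m n] z`, `dev`.  For `n < 0`: `y = G^n z`,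
`z = G^(-n) y`, `‖z - y - (-n) m v‖ ≤ C`. -/
def HmfStmt : Prop :=
  ∀ (g : E → E) (v : E) (C : ℝ), Lf g v C → v ≠ 0 → ∀ m : ℕ, 1 ≤ m →
    ∃ G : E ≃ₜ E, (∀ z, G z = g^[m] z) ∧ Hm G ((m : ℝ) • v) C

/-- **MPV** (uses nothing).  A lift preserves the area of open sets.
PROOF.  `g` is injective, differentiable with determinant one: `MeasureTheory.lintegral_abs_det_fderiv_eq_addHaar_image` (for `g`;
then induction on `m`). -/
def MpvStmt : Prop :=
  ∀ (g : E → E) (v : E) (C : ℝ), Lf g v C → ∀ (m : ℕ) (A : Set E), MeasurableSet A →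
    volume (g^[m] '' A) = volume A

/-- **DSP** (uses FRB, HMF, MPV).  The displacement lemma.
PROOF.  `C ≥ 0`.  `G = g^[m]` (HMF), `w = m v`, `z0` a point, `D0 = ‖G z0 - z0‖ ≤ m ‖v‖ + C ≤ 1 + C` (`dev`).  Let `r > 0` with
`r (1 + Λ) ≤ D0` and `r ≤ 1`.  The ball `B = B(z0, r)` is free: for `z, z' ∈ B`: `‖G z - z'‖ ≥ D0 - Λ ‖z - z0‖ - ‖z' - z0‖ > 0` (mean value
inequality; if `Λ = 0` use `‖z' - z0‖ < r`).  FRB: the sets `G^j B`, `j = 0, .., M - 1`, are pairwise disjoint; `M = ⌊1/(m‖v‖)⌋ ≥ 1`,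
`M ≥ 1/(2 m ‖v‖)`.  They are in `B(z0, r + 1 + C + (small))`: `‖G^j z - z0‖ ≤ r + j m ‖v‖ + C`.  Areas (balls of the sup norm are squares:
`(2r)²`, `volume` of a product of intervals; MPV): `M (2r)² ≤ (2 (2 + C))²`, so `r ≤ (C + 2) / √M ≤ (C + 2) √(2 m ‖v‖)`.
If `D0 ≤ 1 + Λ` take `r = D0/(1 + Λ)`: `D0 ≤ (1 + Λ)(C + 2) √2 √(m ‖v‖)`.  Otherwise take `r = 1`: `1 ≤ (C + 2) √2 √(m ‖v‖)` and
`D0 ≤ 1 + C ≤ (C + 2)`.  In both cases `D0 ≤ (1 + Λ) · 2 (C + 2)² · √(m ‖v‖)`.  (`D0 = 0` is trivial.) -/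
def DspStmt : Prop :=
  ∀ (g : E → E) (v : E) (C : ℝ), Lf g v C → v ≠ 0 → ∀ m : ℕ, 1 ≤ m → (m : ℝ) * ‖v‖ ≤ 1 →
    ∀ Λ : ℝ, 0 ≤ Λ → (∀ z, ‖fderiv ℝ (g^[m]) z‖ ≤ Λ) →
      ∀ z, ‖g^[m] z - z‖ ≤ (1 + Λ) * (2 * (C + 2) ^ 2) * Real.sqrt (m * ‖v‖)

end Pool.Agent.PRT
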