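import Pool.Agent.PRT.Kit

/-!
# PRT, part B: calculus kit (rows)

`Kit.lean` (proved) has `Bd.add`, `Bd.sub`, `Bd.neg`, `Bd.const_smul`, `Bd.clm` (continuous linear maps), `Bd.bil`
(products `B (f z) (g z)` with `‖B‖ ≤ 1`), `Bd.comp` (compositions), `Bd.sum`, `bd_const`, `bd_iff`, `bd_succ`, `bm_succ`,
the same for `Bm`, and `det_eq`, `cr_map`, `cr_lin`, `abs_cr_le`, `abs_ip_le`.  All constants `c` are natural numbers which
depend only on `k`; they may be enlarged.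
-/

set_option autoImplicit false

namespace Pool.Agent.PRT

open Set MeasureTheory
open scoped ContDiff

/-! ### estimates -/

/-- **DFA** (uses nothing).  First difference.
PROOF.  `G z = z + φ z`: `Bm k (1 + D) G`.  Induction on `k`, for all `V` and `ψ` at once.  `k = 0`: mean value inequality
(`Convex.norm_image_sub_le_of_norm_fderiv_le`), `‖φ z‖ ≤ D`.  `k + 1` (`bd_succ`): the derivative of `ψ ∘ G - ψ` is
`(ψ' ∘ G - ψ') + (ψ' ∘ G) φ'`, `ψ' = fderiv ℝ ψ : E → E →L[ℝ] V`, `φ' = fderiv ℝ φ`: the first summand by induction (for `ψ'`,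
`Bm (k+1) C ψ'`), the second one with `Bd.comp` and `Bd.bil` (`ContinuousLinearMap.compL`). -/
def DfaStmt : Prop :=
  ∀ k : ℕ, ∃ c : ℕ, ∀ (V : Type) [NormedAddCommGroup V] [NormedSpace ℝ V] (ψ : E → V) (φ : E → E)
    (C D : ℝ), ContDiff ℝ ∞ ψ → ContDiff ℝ ∞ φ → 0 ≤ C → Bm (k + 1) C ψ → Bd k D φ →
      Bd k (c * C * D * (1 + D) ^ c) (fun z => ψ (z + φ z) - ψ z)

/-- **DFB** (uses DFA).  Second difference.
PROOF.  As DFA.  `k = 0`: the map `t ↦ ψ (z + t φ z)`, or the mean value inequality for `x ↦ ψ x - ψ z - ψ'(z) (x - z)` on the segment: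
`‖ψ'(x) - ψ'(z)‖ ≤ C ‖x - z‖`, so the norm is `≤ C ‖φ z‖²`.  `k + 1`: the derivative of `ρ ψ := ψ ∘ G - ψ - ψ' φ` in the direction `u` is
`(ψ'(G z) - ψ'(z) - ψ''(z)(φ z)) u + (ψ'(G z) - ψ'(z)) (φ'(z) u)`, that is `ρ ψ' + (ψ' ∘ G - ψ') φ'` (symmetry of `ψ''`:
`ψ''(z)(u)(φ z) = ψ''(z)(φ z)(u)`): the first summand by induction, the second one by DFA and `Bd.bil`. -/
def DfbStmt : Prop :=
  ∀ k : ℕ, ∃ c : ℕ, ∀ (V : Type) [NormedAddCommGroup V] [NormedSpace ℝ V] (ψ : E → V) (φ : E → E)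
    (C D : ℝ), ContDiff ℝ ∞ ψ → ContDiff ℝ ∞ φ → 0 ≤ C → Bm (k + 2) C ψ → Bd k D φ →
      Bd k (c * C * D ^ 2 * (1 + D) ^ c) (fun z => ψ (z + φ z) - ψ z - fderiv ℝ ψ z (φ z))

/-- **RCP** (uses nothing).  Reciprocals.
PROOF.  `1/ψ = R ∘ ψ`; induction on `k`: `(1/ψ)' = -(1/ψ)² ψ'` (`Bd.bil` with the scalar multiplication, twice), `|1/ψ| ≤ 2`. -/
def RcpStmt : Prop :=
  ∀ k : ℕ, ∃ c : ℕ, ∀ (ψ : E → ℝ) (C : ℝ), ContDiff ℝ ∞ ψ → 1 ≤ C → (∀ z, 1 / 2 ≤ ψ z) →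
    Bd k C ψ → ContDiff ℝ ∞ (fun z => (ψ z)⁻¹) ∧ Bd k (c * C ^ c) (fun z => (ψ z)⁻¹)

/-- **DTB** (uses nothing).  Determinants.
PROOF.  `det_eq`: `(A z).det = cr (A z (1,0)) (A z (0,1)) = crL (A z (1,0)) (A z (0,1))`; `‖crL‖ ≤ 2`, use `Bd.bil` with
`(1/2) • crL`, and `Bd.clm` for the evaluation at `(1,0)`, `(0,1)` (norm `≤ 1`).  The difference: `det A' - det A =
cr (A' e - A e) (A' f) + cr (A e) (A' f - A f)`. -/
def DtbStmt : Prop :=
  ∀ k : ℕ, ∃ c : ℕ, ∀ (A A' : E → E →L[ℝ] E) (C D : ℝ), ContDiff ℝ ∞ A → ContDiff ℝ ∞ A' →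
    1 ≤ C → Bd k C A → Bd k C A' → Bd k D (fun z => A' z - A z) →
      ContDiff ℝ ∞ (fun z => (A z).det) ∧ Bd k (c * C ^ 2) (fun z => (A z).det) ∧
        Bd k (c * C * D) (fun z => (A' z).det - (A z).det)

/-- **INB** (uses RCP, DTB).  Inverse maps.
PROOF.  `fderiv W y = (fderiv U (W y))⁻¹ = (det)⁻¹ adj`, where `adj A` is linear in `A`:
`adj A u = (u.1 (A f).2 - u.2 (A f).1, -u.1 (A e).2 + u.2 (A e).1)`, `e = (1,0)`, `f = (0,1)`.  `M z := (det fderiv U z)⁻¹ • adj (fderiv U z)`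
satisfies `Bd (k-1) (c D^c) M` (RCP, DTB, `Bd.bil`), and `fderiv W = M ∘ W`.  Induction on `k`: `Bm (k+1) (c D^c) W` from
`Bm k (c D^c) W` by `bm_succ` and `Bd.comp`. -/
def InbStmt : Prop :=
  ∀ k : ℕ, ∃ c : ℕ, ∀ (U W : E → E) (D : ℝ), ContDiff ℝ ∞ U → ContDiff ℝ ∞ W → (∀ z, W (U z) = z) →
    (∀ z, U (W z) = z) → 1 ≤ D → (∀ z, 1 / 2 ≤ (fderiv ℝ U z).det) → Bm k D U →
      Bm k (c * D ^ c) W

/-- **IPL** (uses nothing).  Interpolation.
PROOF.  `a_i = sup ‖D^i ψ‖` (finite by `B`).  For every `δ > 0` and `j + 2 ≤ R`: `a_(j+1) ≤ 2 a_j/δ + δ a_(j+2)`: for `f = D^j ψ` (values in a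
normed space), `f (z + δ ξ) - f z = δ f'(z) ξ + (error ≤ δ² a_(j+2))`, `‖ξ‖ ≤ 1`.  Put `b_i = δ^i a_i`: `b_(j+1) ≤ 2 b_j/t + t b_(j+2)` for all
`t > 0`.  Claim, by induction on `R ≥ 1`: for every `t > 0` there is a constant `K` (depending on `R`, `t` only) with `b_k ≤ K b_0 + t b_R`
for all `k < R`.  `R = 1` trivial.  `R → R + 1`: `b_R ≤ (2/t) b_(R-1) + t b_(R+1)`, `b_(R-1) ≤ K b_0 + (t/4) b_R` (if `R = 1` it is `b_0`),
so `b_R ≤ (4K/t) b_0 + 2 t b_(R+1)`; insert this in `b_k ≤ K' b_0 + b_R` for `k < R`.  With `t = 1`, `c ≥ K`: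
`δ^k a_k ≤ c (a_0 + δ^R a_R)`. -/
def IplStmt : Prop :=
  ∀ R : ℕ, ∃ c : ℕ, ∀ (V : Type) [NormedAddCommGroup V] [NormedSpace ℝ V] (ψ : E → V)
    (A L δ B : ℝ), ContDiff ℝ ∞ ψ → Bd R B ψ → 0 < δ → (∀ z, ‖ψ z‖ ≤ A) →
      (∀ z, ‖iteratedFDeriv ℝ R ψ z‖ ≤ L) → ∀ k ≤ R, ∀ z,
        δ ^ k * ‖iteratedFDeriv ℝ k ψ z‖ ≤ c * (A + δ ^ R * L)

/-- **KGR** (uses nothing).  Growth of the derivatives of the iterates.
PROOF.  `P j = fderiv ℝ (F^[j])`.  For all `j` (induction, `P (j+1) = P 1 (F^j z) ∘ P j z`):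
`fderiv ℝ (P j) z ξ = ∑ i < j, P (j-1-i) (F^[i+1] z) ∘ (fderiv ℝ (fderiv ℝ F) (F^[i] z) (P i z ξ)) ∘ P i z`
(in the step use `P 1 (F^j z) ∘ P (j-1-i) (F^[i+1] z) = P (j-i) (F^[i+1] z)`).  Induction on `k`: let
`Bm k D (F^[j])` for all `j ≤ n`, `D ≥ 1`, `k ≥ 1` (for `k = 1`: `D = Λ`), that is `Bd (k-1) D (P j)`.  By `Bd.comp`, `Bd.bil` (with
`ContinuousLinearMap.compL`; write the summand as a composition of bilinear operations of norm `≤ 1`), every summand is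
`Bd (k-1) (c δ D^c)` (the derivatives of orders `2..k+1` of `F` are `≤ δ`), so `Bd (k-1) (n c δ D^c) (fderiv ℝ (P j))` and
`Bm (k+1) (max Λ (n c δ D^c)) (F^[j])` (`bm_succ`, `bd_succ`).  `k = 0`: nothing to prove. -/
def KgrStmt : Prop :=
  ∀ k : ℕ, ∃ c : ℕ, ∀ F : E → E, ContDiff ℝ ∞ F → ∀ (n : ℕ) (Λ δ : ℝ), 1 ≤ Λ → 0 ≤ δ →
    (∀ j ≤ n, ∀ z, ‖fderiv ℝ (F^[j]) z‖ ≤ Λ) →
      (∀ i, 2 ≤ i → i ≤ k → ∀ z, ‖iteratedFDeriv ℝ i F z‖ ≤ δ) →
        ∀ j ≤ n, Bm k (c * Λ ^ c * (1 + n * δ) ^ c) (F^[j])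

/-- **NWT** (uses nothing).  A zero by the Newton map.
PROOF.  `A = fderiv φ z0`, `d = det A ≠ 0`, `‖A⁻¹‖ ≤ 2 ‖A‖/|d|` (adjugate matrix).  `ξ = ‖φ z0‖`, `r = 2 ‖A⁻¹‖ ξ`.  On the closed ball
of radius `r` around `z0` the map `z ↦ z - A⁻¹ (φ z)` has the derivative `A⁻¹ (A - fderiv φ z)` of norm
`≤ ‖A⁻¹‖ B r ≤ 8 ‖A‖² ξ B/d² ≤ 1/2` and moves `z0` by at most `r/2`: it maps the ball into itself and is a contraction
(`ContractingWith`).  Its fixed point is a zero of `φ`. -/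
def NwtStmt : Prop :=
  ∀ (φ : E → E) (z0 : E) (B : ℝ), ContDiff ℝ ∞ φ → (∀ z, ‖iteratedFDeriv ℝ 2 φ z‖ ≤ B) →
    (fderiv ℝ φ z0).det ≠ 0 →
      16 * ‖fderiv ℝ φ z0‖ ^ 2 * ‖φ z0‖ * B ≤ (fderiv ℝ φ z0).det ^ 2 → ∃ z, φ z = 0

/-- **MAT** (uses nothing).  Powers of a matrix near a shear.
PROOF.  `d = det A`, `tr A = -d` because `det (1 + A) = 1 + tr A + det A = 1`, so `A² = -d (1 + A)` (Cayley-Hamilton).
`(1 + A)^j = a_j + b_j A` with `a_0 = 1`, `b_0 = 0`, `a_(j+1) = a_j - d b_j`, `b_(j+1) = b_j + a_(j+1)`.  By induction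
`|a_j| ≤ 2`, `|b_j| ≤ 2 j` for `j ≤ n` (`|a_(j+1)| ≤ 1 + |d| ∑ |b_i| ≤ 1 + |d| n² ≤ 2`). -/
def MatStmt : Prop :=
  ∀ (A : E →L[ℝ] E) (n : ℕ), (1 + A).det = 1 → (n : ℝ) ^ 2 * |A.det| ≤ 1 / 8 →
    ∀ j ≤ n, ‖(1 + A) ^ j‖ ≤ 2 + 2 * j * ‖A‖

/-! ### integrals and diffeomorphisms -/

/-- **ITG** (uses nothing).  The integral of the Jacobian.
PROOF.  `u = U - id` is periodic.  `det DU = ∂x (x + u1 + u1 ∂y u2) + ∂y (u2 - u1 ∂x u2)` (mixed derivatives commute).  Divergence theorem on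
the square (`MeasureTheory.integral2_divergence_prod_of_hasFDerivAt_off_countable` or
`integral_divergence_prod_Icc_of_hasFDerivAt_off_countable_of_le`): opposite sides cancel except for the summand `x`. -/
def ItgStmt : Prop :=
  ∀ U : E → E, ContDiff ℝ ∞ U → Eqv U → ∫ z in Q, (fderiv ℝ U z).det = 1

/-- **DIF** (uses ITG).  The diffeomorphism criterion.
PROOF.  `U` is open (inverse function theorem, `det ≠ 0`) and proper (`U - id` is periodic, bounded): its range is open and closed, so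
`U` is surjective.  Injective: let `U z1 = U z2`, `z1 ≠ z2`.  If `z1 - z2` is an integer vector then `U z1 - U z2 = z1 - z2 ≠ 0`.  So let
it be none.  Choose small open neighbourhoods `B1`, `B2` of `z1`, `z2` such that all integer translates of `B1`, `B2` are disjoint from
each other, and an open `B ⊆ U B1 ∩ U B2` (open maps) which contains `U z1`, `B1' = B1 ∩ U⁻¹ B`.  After translations
`B1'` (a small piece of it) is in the square `Q`.  The image of `Q \ B1'` still meets every class modulo the integer vectors (a point of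
`B` has a preimage in `B2`, which has a translate in `Q`, not in `B1'`), so its measure is `≥ 1` (countable union of translated
pieces which cover `Q`; or: the sets `(U (Q \ B1') + integer vector) ∩ Q` cover `Q`).  But
`volume (U (Q \ B1')) ≤ ∫ over Q \ B1' of det DU < ∫ over Q = 1` (`MeasureTheory.addHaar_image_le_lintegral_abs_det_fderiv`, ITG,
`det > 0` on the open set `B1'`).  The inverse is smooth: `ContDiffAt.to_localInverse` or `ContDiff` of the inverse of a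
homeomorphism with invertible derivative (`OpenPartialHomeomorph.contDiffAt_symm`). -/
def DifStmt : Prop :=
  ∀ U : E → E, ContDiff ℝ ∞ U → Eqv U → (∀ z, 0 < (fderiv ℝ U z).det) →
    ∃ W : E → E, ContDiff ℝ ∞ W ∧ Eqv W ∧ (∀ z, W (U z) = z) ∧ ∀ z, U (W z) = z

/-- **MSP** (uses nothing).  Integrals of periodic functions.
PROOF.  Change of variables (`integral_image_eq_integral_abs_det_fderiv_smul`, `det = 1`, injective):
`∫ over Q of ψ ∘ g = ∫ over g Q of ψ`.  `g` (half open square) is, like the half open square `Q0 = Ico × Ico`, a fundamental domain of the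
group of integer translations (`g` is a bijection which commutes with them), and `ψ` is periodic:
`IsAddFundamentalDomain.setIntegral_eq`.  Or by hand: `Q0` is the disjoint union of the sets `(g Q0 + w) ∩ Q0`. -/
def MspStmt : Prop :=
  ∀ (g : E → E) (v : E) (C : ℝ), Lf g v C → ∀ ψ : E → E, Continuous ψ → Per ψ →
    ∫ z in Q, ψ (g z) = ∫ z in Q, ψ z

/-- **MEA** (uses MSP).  The mean displacement.
PROOF.  `φ z = g z - z` is periodic; `g^[m] z - z = ∑_(j<m) φ (g^[j] z)`, so `∫ (g^[m] z - z) = m ∫ φ` (MSP for `g`, `m` times: `φ ∘ g^[j]` is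
periodic and continuous), and `‖∫ (g^[m] z - z) - m v‖ ≤ C` (`Q` has measure one).  Divide by `m → ∞`. -/
def MeaStmt : Prop :=
  ∀ (g : E → E) (v : E) (C : ℝ), Lf g v C → ∫ z in Q, (g z - z) = v

end Pool.Agent.PRT
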