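import Pool.Agent.PRT.StmtsA
import Pool.Agent.PRT.StmtsB

/-!
# PRT, part C: dynamics (rows)

`ε = ‖v‖`, `ε l^(2N) = 1`, `φ z = g z - z`.  `l` is large: numerical constants and constants which depend on `k` are
`≤ l`.  `a_i` is the sup norm of the `i`-th derivative of `φ`.
-/

set_option autoImplicit false

namespace Pool.Agent.PRT

open Set MeasureTheory
open scoped ContDiff

/-- rotation by a right angle -/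
def jj (a : E) : E := (-a.2, a.1)

/-- the second vector of the basis `(a, e2 a)` with `cr a (e2 a) = 1` -/
noncomputable def e2 (a : E) : E := (ip a a)⁻¹ • jj a

/-- condition (A): `‖q w - p‖` is small compared with the first derivatives of `F^[m]`, `m ≤ q` -/
def HypA (F : E → E) (w : E) : Prop :=
  ∀ (N : ℕ) (L0 : ℝ), ∃ (q : ℕ) (a b : ℤ) (L : ℝ), 1 ≤ q ∧ L0 ≤ L ∧ (q : ℝ) ≤ L ∧
    (∀ m ≤ q, ∀ z, ‖fderiv ℝ (F^[m]) z‖ ≤ L) ∧ 0 < ‖(q : ℝ) • w - iv a b‖ ∧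
      ‖(q : ℝ) • w - iv a b‖ * L ^ N ≤ 1

/-! ### general facts -/

/-- **DEV** (uses nothing).  Bounded mean motion from the semi-conjugacy.
PROOF.  `H (F^[n] z) = H z + n w`, and `‖H z - z‖ ≤ C0` (continuous and periodic): `C = 2 C0`. -/
def DevStmt : Prop :=
  ∀ (F H : E → E) (w : E), Continuous H → Eqv H → (∀ z, H (F z) = H z + w) →
    ∃ C : ℝ, ∀ (n : ℕ) (z : E), ‖F^[n] z - z - (n : ℝ) • w‖ ≤ C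

/-- **PBD** (uses nothing).  Periodic functions are bounded in `C^k`.
PROOF.  The derivatives of a periodic function are continuous and periodic (`iteratedFDeriv_comp_add_right`), every point is an
integer translate of a point of the compact square `Q`.  For `F` use `F z - z` (or: the derivatives of order `≥ 1` of `F` are
periodic, because `F (z + iv a b) = F z + iv a b`). -/
def PbdStmt : Prop :=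
  (∀ (V : Type) [NormedAddCommGroup V] [NormedSpace ℝ V] (ψ : E → V), ContDiff ℝ ∞ ψ → Per ψ →
    ∀ k, ∃ B : ℝ, Bd k B ψ) ∧
  ∀ F : E → E, ContDiff ℝ ∞ F → Eqv F → ∀ k, ∃ B : ℝ, Bm k B F

/-- **GLF** (uses nothing).  The lift `g = F^[q] - p`.
PROOF.  `g^[j] z = F^[q j] z - j p` (induction, `Eqv F`, `Eqv` of the iterates, `p` is an integer vector); everything else follows from
the properties of `F`. -/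
def GlfStmt : Prop :=
  ∀ (F : E → E) (w : E) (C : ℝ) (q : ℕ) (p : E) (l : ℝ) (N R : ℕ), Gd F w C q p l N R →
    Lf (fun z => F^[q] z - p) ((q : ℝ) • w - p) C ∧
      (∀ (j : ℕ) (z : E), (fun z => F^[q] z - p)^[j] z = F^[q * j] z - (j : ℝ) • p) ∧
        Bm R l (fun z => F^[q] z - p)

/-! ### bootstrap -/

/-- **BOA** (uses DSP).  The displacement from the first derivative.
PROOF.  `ε = ‖v‖`, `m = ⌊1/(4a)⌋`, `1/(8a) ≤ m ≤ 1/(4a)`, `m ε ≤ 1/4`.  For `j ≤ m`: `‖fderiv (g^[j])‖ ≤ (1+a)^j ≤ exp (1/4) ≤ 2`; DSP with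
`Λ = 2`, `C1 = 2 (C+2)^2`: `‖g^[j] z - z‖ ≤ 3 C1 √(j ε) ≤ 3 C1 √(m ε) =: T`.  `g^[m] z - z - m φ z = ∑_(j<m) (φ (g^[j] z) - φ z)` has norm
`≤ m a T ≤ T/4`.  So `m ‖φ z‖ ≤ (5/4) T`, `‖φ z‖ ≤ (15/4) C1 √(ε/m) ≤ (15/4) C1 √(8 a ε) ≤ 11 C1 √(a ε)`. -/
def BoaStmt : Prop :=
  ∀ (g : E → E) (v : E) (C a : ℝ), Lf g v C → 0 < ‖v‖ → ‖v‖ ≤ a → a ≤ 1 / 8 →
    (∀ z, ‖fderiv ℝ (fun z => g z - z) z‖ ≤ a) →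
      ∀ z, ‖g z - z‖ ≤ 11 * (2 * (C + 2) ^ 2) * Real.sqrt (a * ‖v‖)

/-- **BOO** (uses DSP, IPL, PBD, BOA).  The bootstrap.
PROOF.  `ε = l^(-2N)`, `√ε = l^(-N)`, `C + 2 ≤ 3 l`.  `φ` is smooth and periodic; `‖D^R φ‖ ≤ l` (`R ≥ 2`).  IPL with `δ = 1/l`:
`a_i ≤ c l^i (a_0 + l^(1-R))` for `i ≤ R`.  (1) DSP, `m = 1`, `Λ = l`: `a_0 ≤ (1+l) 2 (3l)^2 l^(-N) ≤ 36 l^(3-N)`, so
`a_1 ≤ c (36 l^(4-N) + l^(2-R)) ≤ l^(5-N) ≤ 1/8` (`l ≥ 37 c`, `N ≥ 10`).  (2) `a = max a_1 ε`; BOA: `a_0 ≤ 198 l² √(a ε)`.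
(3) If `a_1 > ε` then `a = a_1` and `a_1 ≤ 198 c l³ √(a_1 ε) + c l^(2-R)`, `c l^(2-R) ≤ c ε² l^(-2) ≤ a_1/2` (as `R ≥ 4N + 4`), so
`a_1 ≤ (396 c)² l^6 ε ≤ ε l^7`.  So in all cases `a ≤ ε l^7`, `a_0 ≤ 198 l² √(ε² l^7) ≤ 198 ε l^6`, and for `i ≤ k`
`a_i ≤ c (198 ε l^(i+6) + l^(i+1-R)) ≤ ε l^(i+8)` (`R ≥ 4N + k + 4`, so `l^(i+1-R) ≤ ε² ≤ ε`). -/
def BooStmt : Prop :=
  ∀ k N R : ℕ, 10 ≤ N → 4 * N + k + 4 ≤ R → ∃ l0 : ℝ, ∀ (g : E → E) (v : E) (C l : ℝ), l0 ≤ l →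
    Lf g v C → 0 < ‖v‖ → ‖v‖ * l ^ (2 * N) = 1 → C ≤ l → Bm R l g → Nr g v C l N k

/-! ### growth -/

/-- **LOW** (uses NWT, MAT).  The lower bound for the displacement.
PROOF.  `a_0 ≤ ε l^8`, `a_1 ≤ ε l^9`, `a_2 ≤ ε l^10`.  Suppose `ξ = ‖φ z0‖ < ε l^(-68)`.  `A = fderiv φ z0`, `d = det A`, `det (1+A) = 1`.
`φ` has no zero (`g z = z` gives `g^[n] z = z` for all `n`, against `dev`, `v ≠ 0`).  NWT: `d² ≤ 16 a_1² ξ a_2 ≤ 16 ε^4 l^(-40)` (trivial if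
`d = 0`), `|d| ≤ 4 ε² l^(-20)`.  `n = ⌈(C+1)/ε⌉`, `n ε ≤ 3 l`, `n² |d| ≤ 36 l^(-18) ≤ 1/8`.  MAT: `‖(1+A)^j‖ ≤ 2 + 6 l · l^9 ≤ l^11` for
`j ≤ n`.  `D_j = g^[j] z0 - z0`: `D_(j+1) = (1+A) D_j + φ z0 + ρ_j`, `ρ_j = φ (z0 + D_j) - φ z0 - A D_j`, `‖ρ_j‖ ≤ a_2 ‖D_j‖²`.  So
`D_j = ∑_(i<j) (1+A)^(j-1-i) (φ z0 + ρ_i)`.  By strong induction on `j ≤ n`: `‖D_j‖ ≤ l^(-50)`: `‖D_j‖ ≤ n l^11 (ξ + a_2 l^(-100))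
≤ 3 l^12 (l^(-68) + l^(-90)) ≤ 6 l^(-56)`.  But `‖D_n‖ ≥ n ε - C ≥ 1` (`dev`): contradiction. -/
def LowStmt : Prop :=
  ∃ l0 : ℝ, ∀ (g : E → E) (v : E) (C l : ℝ) (N : ℕ), l0 ≤ l → 200 ≤ N → Nr g v C l N 2 →
    ∀ z, ‖v‖ ≤ ‖g z - z‖ * l ^ 68

/-- **BAS** (uses nothing).  One step in the basis `(φ, e2 φ)`.
PROOF.  `φ = g z - z`, `φ' = g (g z) - g z`, `u' = Dg(z) u`, `x = cr u (e2 φ)`, `y = cr φ u`: `u = x φ + y e2 φ`.  `‖e2 a‖ ≤ 1/‖a‖`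
(`ip a a ≥ ‖a‖²`, `‖jj a‖ = ‖a‖`), so `‖e2 φ‖, ‖e2 φ'‖ ≤ l^68/ε`, `‖u‖ ≤ |x| ε l^8 + |y| l^68/ε`.  `ρ := φ' - Dg(z) φ = φ(z + φ) - φ(z) - Dφ(z) φ`
(the function `φ` at the three places), `‖ρ‖ ≤ a_2 a_0² ≤ ε³ l^26`.  `‖Dg‖ ≤ 2`.
(2) `cr φ' u' = cr (Dg φ) (Dg u) + cr ρ (Dg u) = y + cr ρ (Dg u)` (`cr_map`, `det = 1`), `|cr ρ (Dg u)| ≤ 4 ‖ρ‖ ‖u‖
≤ 4 ε^4 l^34 |x| + 4 ε² l^94 |y|`.
(1) `cr u' (e2 φ') = x cr (φ' - ρ) (e2 φ') + y cr (Dg (e2 φ)) (e2 φ') = x (1 - cr ρ (e2 φ')) + y κ`, `|cr ρ (e2 φ')| ≤ 2 ε² l^94`;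
`κ = cr (e2 φ) (e2 φ') + cr (Dφ(z) (e2 φ)) (e2 φ')`; the second summand is `≤ 2 a_1 (l^68/ε)² ≤ 2 l^145/ε`; the first one is
`cr (jj φ) (jj φ')/(ip φ φ · ip φ' φ') = cr φ (φ' - φ)/(..)`, `|..| ≤ 2 a_0 (a_1 a_0) (l^68/ε)^4 ≤ 2 l^297/ε`. -/
def BasStmt : Prop :=
  ∃ l0 : ℝ, ∀ (g : E → E) (v : E) (C l : ℝ) (N : ℕ), l0 ≤ l → 200 ≤ N → Nr g v C l N 2 →
    (∀ z, ‖v‖ ≤ ‖g z - z‖ * l ^ 68) → ∀ z u : E,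
      |cr (fderiv ℝ g z u) (e2 (g (g z) - g z)) - cr u (e2 (g z - z))| ≤
        ‖v‖ ^ 2 * l ^ 100 * |cr u (e2 (g z - z))| + ‖v‖⁻¹ * l ^ 300 * |cr (g z - z) u| ∧
      |cr (g (g z) - g z) (fderiv ℝ g z u) - cr (g z - z) u| ≤
        ‖v‖ ^ 4 * l ^ 40 * |cr u (e2 (g z - z))| + ‖v‖ ^ 2 * l ^ 100 * |cr (g z - z) u|

/-- **REC** (uses nothing).  The recursion.
PROOF.  `X = 2 |x 0| + ε⁻² l^303 |y 0|`, `Y = 2 |y 0| + ε³ l^43 |x 0|`; induction on `j ≤ n`: `|x i| ≤ X`, `|y i| ≤ Y` for `i < j`.  As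
`n ≤ l²/ε`: `|y j - y 0| ≤ ε³ l^42 X + ε l^102 Y = |x 0| (2 ε³ l^42 + ε^4 l^145) + |y 0| (ε l^345 + 2 ε l^102) ≤ ε³ l^43 |x 0| + |y 0|`,
`|x j - x 0| ≤ ε l^102 X + ε⁻² l^302 Y = |x 0| (2 ε l^102 + ε l^345) + |y 0| (ε⁻¹ l^405 + 2 ε⁻² l^302) ≤ |x 0| + ε⁻² l^303 |y 0|`
(use `ε l^400 ≤ 1`, `l ≥ 64`). -/
def RecStmt : Prop :=
  ∀ (ε l : ℝ) (n : ℕ) (x y : ℕ → ℝ), 0 < ε → 64 ≤ l → ε * l ^ 400 ≤ 1 → n * ε ≤ 64 * l →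
    (∀ j < n, |x (j + 1) - x j| ≤ ε ^ 2 * l ^ 100 * |x j| + ε⁻¹ * l ^ 300 * |y j|) →
      (∀ j < n, |y (j + 1) - y j| ≤ ε ^ 4 * l ^ 40 * |x j| + ε ^ 2 * l ^ 100 * |y j|) →
        ∀ j ≤ n, |x j| ≤ 2 * |x 0| + (ε ^ 2)⁻¹ * l ^ 303 * |y 0| ∧
          |y j| ≤ 2 * |y 0| + ε ^ 3 * l ^ 43 * |x 0|

/-- **GRO** (uses LOW, BAS, REC).  The growth of the first derivative.
PROOF.  `‖u‖ ≤ 1`, `z_j = g^[j] z`, `u_j = fderiv (g^[j]) z u`, `u_(j+1) = Dg(z_j) u_j`, `φ_j = g z_j - z_j`, `x j = cr (u_j) (e2 φ_j)`,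
`y j = cr φ_j u_j`: BAS, REC (`ε l^400 ≤ 1` as `2N ≥ 400`).  `|x 0| ≤ 2 l^68/ε`, `|y 0| ≤ 2 ε l^8`, so `|x j| ≤ l^312/ε`, `|y j| ≤ 5 ε l^8`,
`u_j = x j φ_j + y j e2 φ_j`: `‖u_j‖ ≤ l^320 + 5 l^76 ≤ l^330`. -/
def GroStmt : Prop :=
  ∃ l0 : ℝ, ∀ (g : E → E) (v : E) (C l : ℝ) (N n : ℕ), l0 ≤ l → 200 ≤ N → Nr g v C l N 2 →
    n * ‖v‖ ≤ 64 * l → ∀ j ≤ n, ∀ z, ‖fderiv ℝ (g^[j]) z‖ ≤ l ^ 330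

/-- **GRK** (uses KGR, GRO).  The growth of all derivatives.
PROOF.  KGR for `g`, `Λ = l^330`, `δ = ε l^(k+8)` (`D^i g = D^i φ` for `i ≥ 2`; `k ≤ 1` is GRO), `n δ ≤ 64 l^(k+9)`; the constants are
`≤ l`. -/
def GrkStmt : Prop :=
  ∀ k : ℕ, ∃ (c : ℕ) (l0 : ℝ), ∀ (g : E → E) (v : E) (C l : ℝ) (N n : ℕ), l0 ≤ l → 200 ≤ N →
    Nr g v C l N (k + 2) → n * ‖v‖ ≤ 64 * l → ∀ j ≤ n, Bm k (l ^ c) (g^[j])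

/-- **GRF** (uses GLF, GRK).  The growth of the iterates of `F`.
PROOF.  `F^[q j + i] z = F^[i] (g^[j] z) + j p` (GLF, `Eqv`): the same derivatives as `F^[i] ∘ g^[j]`; `Bm.comp`, `bd` of `Gd` (`i ≤ q`,
`k ≤ R`) and GRK. -/
def GrfStmt : Prop :=
  ∀ k : ℕ, ∃ (c : ℕ) (l0 : ℝ), ∀ (F : E → E) (w : E) (C : ℝ) (q : ℕ) (p : E) (l : ℝ) (N R n : ℕ),
    l0 ≤ l → 200 ≤ N → k ≤ R → Gd F w C q p l N R →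
      Nr (fun z => F^[q] z - p) ((q : ℝ) • w - p) C l N (k + 2) →
        n * ‖(q : ℝ) • w - p‖ ≤ 64 * l → ∀ j ≤ n, ∀ i ≤ q, Bm k (l ^ c) (F^[q * j + i])

/-! ### the hypotheses -/

/-- **CHL** (uses KGR, PBD).  The choice of `q` and `l`.
PROOF.  PBD: `Bm R B F`, `B ≥ 1`.  KGR: if `‖fderiv (F^[m])‖ ≤ L` for `m ≤ q`, `q ≤ L`, then `Bm R (c L^c (1 + L B)^c) (F^[m])` for
`m ≤ q`; if `L ≥ L0` is large this is `≤ L^(c')`, `c' = 3 c + 1`.  `HypA` with `2 N c'` in place of `N` and `L0` so large that also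
`L0 ≥ 1`, `L0 ≥ C`, `L0 ≥ l0`: `ε L^(2 N c') ≤ 1`; put `l = ε^(-1/(2N))` (`Real.rpow`): `ε l^(2N) = 1` and `l ≥ L^(c') ≥ L`. -/
def ChlStmt : Prop :=
  ∀ (F : E → E) (w : E) (C : ℝ), Lf F w C → HypA F w → ∀ (N R : ℕ) (l0 : ℝ), 1 ≤ N →
    ∃ (q : ℕ) (p : E) (l : ℝ), l0 ≤ l ∧ Gd F w C q p l N R

/-- **SLV** (uses PBD).  Super-Liouville rotation vectors satisfy (A).
PROOF.  `‖fderiv F‖ ≤ B`, `B ≥ 1` (PBD), so `‖fderiv (F^[m])‖ ≤ B^m`.  `L = (max L0 1) (B e)^q` is `≥ L0, q, B^m` for `m ≤ q`.  As `q ≥ 1`: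
`L^N ≤ exp (K q)` with `K = N log (max L0 1 * B * e)`. -/
def SlvStmt : Prop :=
  ∀ (F : E → E) (w : E), ContDiff ℝ ∞ F → Eqv F →
    (∀ (q : ℕ) (a b : ℤ), 1 ≤ q → (q : ℝ) • w ≠ iv a b) →
      (∀ K : ℝ, ∃ (q : ℕ) (a b : ℤ), 1 ≤ q ∧ ‖(q : ℝ) • w - iv a b‖ ≤ Real.exp (-K * q)) → HypA F w

/-- **PLG** (uses nothing).  Liouville rotation vectors and polynomial growth.
PROOF.  `A ≥ 1`.  `L = (max L0 1) A (q+1)^s q ≤ (max L0 1) A 2^s q^(s+1)` (and `L ≥ L0, q, A (m+1)^s`).  With `2^j ≥ ((max L0 1) A 2^s)^N`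
and `n = j + (s+1) N`: `L^N ≤ 2^j q^((s+1)N) ≤ q^n`, as `q ≥ 2`. -/
def PlgStmt : Prop :=
  ∀ (F : E → E) (w : E) (A : ℝ) (s : ℕ), 1 ≤ A →
    (∀ (m : ℕ) (z : E), ‖fderiv ℝ (F^[m]) z‖ ≤ A * ((m : ℝ) + 1) ^ s) →
      (∀ n : ℕ, ∃ (q : ℕ) (a b : ℤ), 2 ≤ q ∧ 0 < ‖(q : ℝ) • w - iv a b‖ ∧
        ‖(q : ℝ) • w - iv a b‖ * (q : ℝ) ^ n ≤ 1) → HypA F w

end Pool.Agent.PRT
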